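import Pool.Agent.OrdR.Basic

/-!
# Trivial action on left submodules

`M' ≤ M` left submodules of `E` (stable under `Φ` and all `ρ g`) such that the part of `M / M'` outside `P` is
zero. Apply `Tr` to the algebra `Module.End O (M / M')` (a quotient of `↥M`, for instance
`↥M ⧸ M'.submoduleOf M`), `Φ' = ` left multiplication by `Φ`, `Ψ' = ` left multiplication by `Ψ = Φ^(n-1)` (`Rot.psi`),
`ρ' g = ` left multiplication by `ρ g` (a monoid homomorphism into `Module.End`), `(aug O ρ')^K = 0` since every element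
of `(aug O ρ')^K` is the left multiplication by an element of `(aug O ρ)^K` (the set of endomorphisms induced by
elements of a submodule `U` of stabilising elements is a submodule, multiplicative); `ide n ζ Φ' i` is the
left multiplication by `ide n ζ Φ i`.
-/

set_option autoImplicit false

namespace Pool.Agent.OrdR

open Pool.Agent.LgP Pool.Agent.OrdS

/-- the elements stabilising `M` and `M'` -/
def App_S {O E : Type} [CommRing O] [Ring E] [Algebra O E] (M M' : Submodule O E) :
    Subalgebra O E where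
  carrier := {e | (∀ x ∈ M, e * x ∈ M) ∧ ∀ x ∈ M', e * x ∈ M'}
  mul_mem' := by
    rintro a b ⟨ha, ha'⟩ ⟨hb, hb'⟩
    refine ⟨fun x hx => ?_, fun x hx => ?_⟩
    · rw [mul_assoc]; exact ha _ (hb _ hx)
    · rw [mul_assoc]; exact ha' _ (hb' _ hx)
  add_mem' := by
    rintro a b ⟨ha, ha'⟩ ⟨hb, hb'⟩
    refine ⟨fun x hx => ?_, fun x hx => ?_⟩
    · rw [add_mul]; exact M.add_mem (ha _ hx) (hb _ hx)
    · rw [add_mul]; exact M'.add_mem (ha' _ hx) (hb' _ hx)
  algebraMap_mem' := by
    intro r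
    refine ⟨fun x hx => ?_, fun x hx => ?_⟩
    · rw [← Algebra.smul_def]; exact M.smul_mem _ hx
    · rw [← Algebra.smul_def]; exact M'.smul_mem _ hx

/-- the action on the quotient -/
def App_L {O E : Type} [CommRing O] [Ring E] [Algebra O E] (M M' : Submodule O E) :
    App_S M M' →ₐ[O] Module.End O (↥M ⧸ M'.submoduleOf M) where
  toFun e := Submodule.mapQ (M'.submoduleOf M) (M'.submoduleOf M)
    ((LinearMap.mulLeft O (e : E)).restrict (fun x hx => e.2.1 x hx))
    (fun x hx => e.2.2 x.1 hx)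
  map_one' := by
    apply Submodule.linearMap_qext
    ext x
    simp only [LinearMap.coe_comp, Function.comp_apply, Submodule.mkQ_apply, Submodule.mapQ_apply]
    exact congrArg _ (Subtype.ext (one_mul _))
  map_mul' := by
    intro a b
    apply Submodule.linearMap_qext
    ext x
    exact congrArg (Submodule.Quotient.mk (p := M'.submoduleOf M)) (Subtype.ext (mul_assoc _ _ _))
  map_zero' := by
    apply Submodule.linearMap_qext
    ext x
    exact congrArg (Submodule.Quotient.mk (p := M'.submoduleOf M)) (Subtype.ext (zero_mul _))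
  map_add' := by
    intro a b
    apply Submodule.linearMap_qext
    ext x
    exact congrArg (Submodule.Quotient.mk (p := M'.submoduleOf M)) (Subtype.ext (add_mul _ _ _))
  commutes' := by
    intro r
    apply Submodule.linearMap_qext
    ext x
    exact congrArg (Submodule.Quotient.mk (p := M'.submoduleOf M))
      (Subtype.ext (Algebra.smul_def _ _).symm)

theorem App_L_apply {O E : Type} [CommRing O] [Ring E] [Algebra O E] (M M' : Submodule O E)
    (e : App_S M M') (x : M) :
    App_L M M' e (Submodule.Quotient.mk x) =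
      Submodule.Quotient.mk (⟨(e : E) * x, e.2.1 x x.2⟩ : M) := rfl

theorem App_ide {n : ℕ} {O A B : Type} [CommRing O] [Ring A] [Algebra O A] [Ring B] [Algebra O B]
    {ζ : O} (f : A →ₐ[O] B) (Φ : A) (i : ℕ) : f (ide n ζ Φ i) = ide n ζ (f Φ) i := by
  unfold ide
  rw [map_smul, map_sum]
  simp only [map_smul, map_pow]

theorem App_aug {O A B G : Type} [CommRing O] [Ring A] [Algebra O A] [Ring B] [Algebra O B]
    [Group G] (f : A →ₐ[O] B) (ρ : G →* A) :
    aug O ((f : A →* B).comp ρ) = (aug O ρ).map f.toLinearMap := by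
  unfold aug
  rw [Submodule.map_span, ← Set.range_comp]
  congr 1
  congr 1
  funext x
  simp

theorem app {n : ℕ} {O E G : Type} [CommRing O] [Ring E] [Algebra O E] [Group G] {ζ : O}
    {φ : G →* G} {Φ Ψ : E} {ρ : G →* E} {P : Set (ZMod n)} {s : ℕ} (hP : Prim O n ζ)
    (hR : Rep n O φ Φ Ψ ρ) (hT : Tr n ζ φ P s) (M M' : Submodule O E) (hM : M' ≤ M)
    (h1 : ∀ x ∈ M, Φ * x ∈ M) (h2 : ∀ x ∈ M', Φ * x ∈ M') (h3 : ∀ g, ∀ x ∈ M, ρ g * x ∈ M)
    (h4 : ∀ g, ∀ x ∈ M', ρ g * x ∈ M')
    (h5 : ∀ i : ℕ, (i : ZMod n) ∉ P → ∀ x ∈ M, ide n ζ Φ i * x ∈ M') :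
    ∀ g ∈ derG s (⊤ : Subgroup G), ∀ x ∈ M, (ρ g - 1) * x ∈ M' := by
  have hΦ : Φ ∈ App_S M M' := ⟨h1, h2⟩
  have hΨ : Ψ ∈ App_S M M' := by
    rw [(hR.rot hP).psi]
    exact pow_mem hΦ _
  have hρ : ∀ g, ρ g ∈ App_S M M' := fun g => ⟨h3 g, h4 g⟩
  let ρS : G →* App_S M M' :=
    { toFun := fun g => ⟨ρ g, hρ g⟩
      map_one' := Subtype.ext (map_one ρ)
      map_mul' := fun a b => Subtype.ext (map_mul ρ a b) }
  let L := App_L M M'
  let f : App_S M M' →* Module.End O (↥M ⧸ M'.submoduleOf M) := (L : _ →* _)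
  have hval : ((App_S M M').val : App_S M M' →* E).comp ρS = ρ := by
    ext g
    rfl
  have hrep : Rep n O φ (L ⟨Φ, hΦ⟩) (L ⟨Ψ, hΨ⟩) ((L : App_S M M' →* _).comp ρS) := by
    refine ⟨?_, ?_, ?_, ?_, ?_⟩
    · rw [← map_mul, ← map_one L]
      exact congrArg L (Subtype.ext hR.pq)
    · rw [← map_mul, ← map_one L]
      exact congrArg L (Subtype.ext hR.qp)
    · rw [← map_pow, ← map_one L]
      exact congrArg L (Subtype.ext hR.pow)
    · intro g
      have h := hR.rho g
      have h' : (⟨Φ, hΦ⟩ : App_S M M') * ρS g * ⟨Ψ, hΨ⟩ = ρS (φ g) := Subtype.ext h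
      have := congrArg L h'
      rw [map_mul, map_mul] at this
      exact this
    · obtain ⟨K, hK⟩ := hR.nil
      refine ⟨K, ?_⟩
      rw [App_aug L ρS]
      have h0 : (aug O ρS) ^ K = ⊥ := by
        have h1 : ((aug O ρS) ^ K).map (App_S M M').val.toLinearMap = ⊥ := by
          rw [Submodule.map_pow, ← App_aug (App_S M M').val ρS, hval, hK]
        rw [eq_bot_iff]
        intro x hx
        have hx' : (App_S M M').val x ∈ ((aug O ρS) ^ K).map (App_S M M').val.toLinearMap :=
          Submodule.mem_map_of_mem hx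
        rw [h1, Submodule.mem_bot] at hx'
        rw [Submodule.mem_bot]
        exact Subtype.ext hx'
      rw [← Submodule.map_pow, h0, Submodule.map_bot]
  have hsupp : Supp n ζ (L ⟨Φ, hΦ⟩) P := by
    intro i hi
    rw [← App_ide L (⟨Φ, hΦ⟩ : App_S M M') i]
    apply LinearMap.ext
    intro q
    obtain ⟨x, rfl⟩ := Submodule.Quotient.mk_surjective _ q
    have hval2 : ((ide n ζ (⟨Φ, hΦ⟩ : App_S M M') i : App_S M M') : E) = ide n ζ Φ i :=
      App_ide (App_S M M').val (⟨Φ, hΦ⟩ : App_S M M') i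
    rw [App_L_apply, LinearMap.zero_apply, Submodule.Quotient.mk_eq_zero]
    change ((ide n ζ (⟨Φ, hΦ⟩ : App_S M M') i : App_S M M') : E) * (x : E) ∈ M'
    rw [hval2]
    exact h5 i hi x x.2
  have key := hT _ (L ⟨Φ, hΦ⟩) (L ⟨Ψ, hΨ⟩) ((L : App_S M M' →* _).comp ρS) hrep hsupp
  intro g hg x hx
  have h := key g hg
  have h' : L (ρS g) (Submodule.Quotient.mk (⟨x, hx⟩ : M)) =
      Submodule.Quotient.mk (⟨x, hx⟩ : M) := by
    have := congrArg (fun u : Module.End O (↥M ⧸ M'.submoduleOf M) =>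
      u (Submodule.Quotient.mk (⟨x, hx⟩ : M))) h
    exact this
  rw [App_L_apply, Submodule.Quotient.eq] at h'
  have h'' : ρ g * x - x ∈ M' := h'
  rw [sub_mul, one_mul]
  exact h''

end Pool.Agent.OrdR
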