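import Pool.Agent.OrdR.Defs

/-!
# Basic facts about `Hom`, `ide`, `cmp` (adapt `OrdS/Idem.lean` and `OrdS/Basic.lean`: `6` becomes `n`, `5` becomes
`n - 1`; all statements there are proved the same way)
-/

set_option autoImplicit false

namespace Pool.Agent.OrdR

open Pool.Agent.LgP Pool.Agent.OrdS

variable {n : ℕ} {O A : Type} [CommRing O] [Ring A] [Algebra O A] {ζ : O} {Φ Ψ : A}

theorem zeta_congr (hP : Prim O n ζ) {k l : ℕ} (h : k ≡ l [MOD n]) : ζ ^ k = ζ ^ l := by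
  have h1 : ∀ k : ℕ, ζ ^ k = ζ ^ (k % n) := by
    intro k
    conv_lhs => rw [← Nat.mod_add_div k n, pow_add, pow_mul, hP.pow, one_pow, mul_one]
  have h2 : k % n = l % n := h
  rw [h1 k, h1 l, h2]

theorem inv_n (hP : Prim O n ζ) (a : A) : Ring.inverse (n : O) • (n : O) • a = a := by
  rw [smul_smul, Ring.inverse_mul_cancel _ hP.unit, one_smul]

private theorem Basic_sub_one (hn : 0 < n) : n - 1 + 1 = n := Nat.sub_add_cancel hn

theorem Rot.psi (h : Rot n ζ Φ Ψ) : Ψ = Φ ^ (n - 1) := by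
  have h0 : 0 < n := h.prim.pos
  have h1 : Φ ^ (n - 1) * Φ = 1 := by rw [← pow_succ, Basic_sub_one h0]; exact h.pow
  calc Ψ = (Φ ^ (n - 1) * Φ) * Ψ := by rw [h1, one_mul]
    _ = Φ ^ (n - 1) := by rw [mul_assoc, h.pq, mul_one]

theorem Rot.powPsi (h : Rot n ζ Φ Ψ) : Ψ ^ n = 1 := by
  rw [h.psi, ← pow_mul, Nat.mul_comm, pow_mul, h.pow, one_pow]

theorem ide_congr (h : Rot n ζ Φ Ψ) {i j : ℕ} (hij : i ≡ j [MOD n]) :
    ide n ζ Φ i = ide n ζ Φ j := by
  unfold ide
  congr 1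
  refine Finset.sum_congr rfl fun k _ => ?_
  congr 1
  apply zeta_congr h.prim
  exact Nat.ModEq.mul_right _ (Nat.ModEq.mul_left _ hij)

/-- the sum over a shifted range -/
private theorem Basic_shift (h : Rot n ζ Φ Ψ) (f : ℕ → A) (g : ℕ → A)
    (hfg : ∀ k, f k = g (k + 1)) (hg : g n = g 0) :
    ∑ j ∈ Finset.range n, f j = ∑ j ∈ Finset.range n, g j := by
  obtain ⟨m, rfl⟩ : ∃ m, n = m + 1 := ⟨n - 1, (Basic_sub_one h.prim.pos).symm⟩
  rw [Finset.sum_range_succ, Finset.sum_range_succ' g]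
  congr 1
  · exact Finset.sum_congr rfl fun k _ => hfg k
  · rw [hfg m, hg]

theorem ide_phi (h : Rot n ζ Φ Ψ) (i : ℕ) : Φ * ide n ζ Φ i = ζ ^ i • ide n ζ Φ i := by
  have key : Φ * ∑ j ∈ Finset.range n, ζ ^ ((n - 1) * i * j) • Φ ^ j =
      ζ ^ i • ∑ j ∈ Finset.range n, ζ ^ ((n - 1) * i * j) • Φ ^ j := by
    rw [Finset.mul_sum, Finset.smul_sum]
    have h1 : ∀ j, Φ * ζ ^ ((n - 1) * i * j) • Φ ^ j = ζ ^ ((n - 1) * i * j) • Φ ^ (j + 1) := by
      intro j
      rw [mul_smul_comm, pow_succ']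
    have h2 : ∀ j, ζ ^ i • ζ ^ ((n - 1) * i * j) • Φ ^ j = ζ ^ (i + (n - 1) * i * j) • Φ ^ j := by
      intro j
      rw [smul_smul, ← pow_add]
    simp only [h1, h2]
    have h0 : 0 < n := h.prim.pos
    refine Basic_shift h _ _ (fun k => ?_) ?_
    · congr 1
      apply zeta_congr h.prim
      have e : i + (n - 1) * i * (k + 1) = (n - 1) * i * k + n * i := by
        have : n * i = (n - 1) * i + i := by
          conv_lhs => rw [← Basic_sub_one h0]
          ring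
        rw [this]
        ring
      rw [e]
      exact (Nat.add_mul_mod_self_left _ _ _).symm
    · rw [h.pow, pow_zero]
      congr 1
      apply zeta_congr h.prim
      have e : i + (n - 1) * i * n = (i + (n - 1) * i * 0) + n * ((n - 1) * i) := by ring
      rw [e]
      exact Nat.add_mul_mod_self_left _ _ _
  unfold ide
  rw [mul_smul_comm, key, smul_comm]

theorem ide_phi' (h : Rot n ζ Φ Ψ) (i : ℕ) : ide n ζ Φ i * Φ = ζ ^ i • ide n ζ Φ i := by
  rw [← ide_phi h]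
  unfold ide
  rw [smul_mul_assoc, mul_smul_comm, Finset.sum_mul, Finset.mul_sum]
  congr 1
  refine Finset.sum_congr rfl fun j _ => ?_
  rw [smul_mul_assoc, mul_smul_comm, ← pow_succ, ← pow_succ']

private theorem Basic_phi_pow (h : Rot n ζ Φ Ψ) (i k : ℕ) :
    Φ ^ k * ide n ζ Φ i = ζ ^ (i * k) • ide n ζ Φ i := by
  induction k with
  | zero => simp
  | succ k ih =>
    rw [pow_succ', mul_assoc, ih, mul_smul_comm, ide_phi h, smul_smul, ← pow_add]
    ring_nf

private theorem Basic_mul (h : Rot n ζ Φ Ψ) (i j : ℕ) :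
    ide n ζ Φ i * ide n ζ Φ j = Ring.inverse (n : O) •
      (∑ k ∈ Finset.range n, ζ ^ (((n - 1) * i + j) * k)) • ide n ζ Φ j := by
  conv_lhs => rw [ide]
  rw [smul_mul_assoc, Finset.sum_mul, Finset.sum_smul]
  congr 1
  refine Finset.sum_congr rfl fun k _ => ?_
  rw [smul_mul_assoc, Basic_phi_pow h, smul_smul, ← pow_add]
  congr 2
  ring

theorem ide_idem (h : Rot n ζ Φ Ψ) (i : ℕ) : ide n ζ Φ i * ide n ζ Φ i = ide n ζ Φ i := by
  have h0 : 0 < n := h.prim.pos
  rw [Basic_mul h]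
  have h2 : ∀ k, ζ ^ (((n - 1) * i + i) * k) = 1 := by
    intro k
    have e : ((n - 1) * i + i) * k = n * (i * k) := by
      have : n * (i * k) = ((n - 1) + 1) * (i * k) := by rw [Basic_sub_one h0]
      rw [this]
      ring
    rw [e, pow_mul, h.prim.pow, one_pow]
  simp only [h2]
  rw [Finset.sum_const, Finset.card_range, nsmul_eq_mul, mul_one]
  exact inv_n h.prim _

theorem ide_ne (h : Rot n ζ Φ Ψ) {i j : ℕ} (hij : ¬ i ≡ j [MOD n]) :
    ide n ζ Φ i * ide n ζ Φ j = 0 := by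
  have h0 : 0 < n := h.prim.pos
  rw [Basic_mul h]
  have h3 : ¬ n ∣ ((n - 1) * i + j) := by
    intro h4
    apply hij
    have h5 : (n - 1) * i + j ≡ 0 [MOD n] := (Nat.modEq_zero_iff_dvd).2 h4
    have h6 : (n - 1) * i + i ≡ 0 [MOD n] := by
      rw [Nat.modEq_zero_iff_dvd]
      refine ⟨i, ?_⟩
      have : n * i = ((n - 1) + 1) * i := by rw [Basic_sub_one h0]
      rw [this]
      ring
    exact Nat.ModEq.add_left_cancel' _ (h6.trans h5.symm)
  rw [h.prim.sum _ h3, zero_smul, smul_zero]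

private theorem Basic_mul_swap (i j : ℕ) : (n - 1) * i * j = ((n - 1) * j) * i := by ring

/-- `n` does not divide `(n - 1) * j` for `0 < j < n` -/
private theorem Basic_dvd {j : ℕ} (h0 : j ≠ 0) (hj : j < n) : ¬ n ∣ (n - 1) * j := by
  intro h
  have hn : 0 < n := by omega
  have h1 : (n - 1) * j + j = n * j := by
    have : n * j = ((n - 1) + 1) * j := by rw [Basic_sub_one hn]
    rw [this]
    ring
  have h2 : n ∣ (n - 1) * j + j := by
    rw [h1]
    exact Dvd.intro _ rfl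
  have h3 : n ∣ j := (Nat.dvd_add_right h).1 h2
  exact absurd (Nat.le_of_dvd (Nat.pos_of_ne_zero h0) h3) (by omega)

theorem ide_sum (h : Rot n ζ Φ Ψ) : ∑ i ∈ Finset.range n, ide n ζ Φ i = 1 := by
  have hn : 0 < n := h.prim.pos
  unfold ide
  rw [← Finset.smul_sum, Finset.sum_comm]
  have h1 : ∀ j ∈ Finset.range n, ∑ i ∈ Finset.range n, ζ ^ ((n - 1) * i * j) • Φ ^ j =
      if j = 0 then (n : O) • (1 : A) else 0 := by
    intro j hj
    rw [← Finset.sum_smul]
    have e : ∀ i, ζ ^ ((n - 1) * i * j) = ζ ^ (((n - 1) * j) * i) := fun i => by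
      rw [Basic_mul_swap]
    simp only [e]
    split_ifs with h0
    · subst h0
      simp
    · rw [h.prim.sum, zero_smul]
      rw [Finset.mem_range] at hj
      exact Basic_dvd h0 hj
  rw [Finset.sum_congr rfl h1, Finset.sum_ite_eq']
  rw [if_pos (by simpa using hn)]
  exact inv_n h.prim 1

theorem Hom.mul {i j : ℕ} {a b : A} (ha : Hom ζ Φ i a) (hb : Hom ζ Φ j b) :
    Hom ζ Φ (i + j) (a * b) := by
  unfold Hom at *
  rw [← mul_assoc, ha, smul_mul_assoc, mul_assoc, hb, mul_smul_comm, smul_smul, ← pow_add,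
    mul_assoc]

theorem Hom.add {i : ℕ} {a b : A} (ha : Hom ζ Φ i a) (hb : Hom ζ Φ i b) :
    Hom ζ Φ i (a + b) := by
  unfold Hom at *
  rw [mul_add, add_mul, smul_add, ha, hb]

theorem Hom.neg {i : ℕ} {a : A} (ha : Hom ζ Φ i a) : Hom ζ Φ i (-a) := by
  unfold Hom at *
  rw [mul_neg, neg_mul, smul_neg, ha]

theorem Hom.sub {i : ℕ} {a b : A} (ha : Hom ζ Φ i a) (hb : Hom ζ Φ i b) :
    Hom ζ Φ i (a - b) := by
  rw [sub_eq_add_neg]
  exact ha.add hb.neg

theorem Hom.smul {i : ℕ} {a : A} (r : O) (ha : Hom ζ Φ i a) : Hom ζ Φ i (r • a) := by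
  unfold Hom at *
  rw [mul_smul_comm, ha, smul_mul_assoc, smul_comm]

theorem Hom.zero' (i : ℕ) : Hom ζ Φ i (0 : A) := by
  unfold Hom
  rw [mul_zero, zero_mul, smul_zero]

theorem Hom.one' : Hom ζ Φ 0 (1 : A) := by
  unfold Hom
  rw [pow_zero, one_smul, mul_one, one_mul]

theorem Hom.comm {i j : ℕ} {a b : A} (ha : Hom ζ Φ i a) (hb : Hom ζ Φ j b) :
    Hom ζ Φ (i + j) (a * b - b * a) := by
  refine (ha.mul hb).sub ?_
  rw [add_comm]
  exact hb.mul ha

theorem Hom.mod (hP : Prim O n ζ) {i j : ℕ} (hij : i ≡ j [MOD n]) {a : A} (ha : Hom ζ Φ i a) :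
    Hom ζ Φ j a := by
  unfold Hom at *
  rw [ha, zeta_congr hP hij]

private theorem Basic_pow_phi {d : ℕ} {a : A} (ha : Hom ζ Φ d a) (j : ℕ) :
    Φ ^ j * a = ζ ^ (d * j) • (a * Φ ^ j) := by
  induction j with
  | zero => simp
  | succ j ih =>
    rw [pow_succ', mul_assoc, ih, mul_smul_comm, ← mul_assoc, ha, smul_mul_assoc, smul_smul,
      ← pow_add, mul_assoc, ← pow_succ']
    congr 2

/-- a homogeneous element moves the idempotents -/
theorem Hom.ide (h : Rot n ζ Φ Ψ) {d : ℕ} {a : A} (ha : Hom ζ Φ d a) (i : ℕ) :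
    ide n ζ Φ (i + d) * a = a * OrdR.ide n ζ Φ i := by
  have hn : 0 < n := h.prim.pos
  unfold OrdR.ide
  rw [mul_smul_comm, smul_mul_assoc, Finset.mul_sum, Finset.sum_mul]
  congr 1
  refine Finset.sum_congr rfl fun j _ => ?_
  rw [smul_mul_assoc, Basic_pow_phi ha, smul_smul, ← pow_add, mul_smul_comm]
  congr 1
  apply zeta_congr h.prim
  have e : (n - 1) * (i + d) * j + d * j = (n - 1) * i * j + n * (d * j) := by
    have : n * (d * j) = ((n - 1) + 1) * (d * j) := by rw [Basic_sub_one hn]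
    rw [this]
    ring
  rw [e]
  exact Nat.add_mul_mod_self_left _ _ _

theorem cmp_hom (h : Rot n ζ Φ Ψ) (i : ℕ) (a : A) : Hom ζ Φ i (cmp n ζ Φ Ψ i a) := by
  have h0 : 0 < n := h.prim.pos
  have key : Φ * ∑ j ∈ Finset.range n, ζ ^ ((n - 1) * i * j) • (Φ ^ j * a * Ψ ^ j) =
      ζ ^ i • ((∑ j ∈ Finset.range n, ζ ^ ((n - 1) * i * j) • (Φ ^ j * a * Ψ ^ j)) * Φ) := by
    rw [Finset.mul_sum, Finset.sum_mul, Finset.smul_sum]
    have h1 : ∀ j, Φ * ζ ^ ((n - 1) * i * j) • (Φ ^ j * a * Ψ ^ j) =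
        ζ ^ ((n - 1) * i * j) • (Φ ^ (j + 1) * a * Ψ ^ j) := by
      intro j
      rw [mul_smul_comm, pow_succ']
      simp only [mul_assoc]
    have hp : ∀ j, Ψ ^ (j + 1) * Φ = Ψ ^ j := by
      intro j
      rw [pow_succ, mul_assoc, h.qp, mul_one]
    have h2 : ∀ j, ζ ^ i • ((ζ ^ ((n - 1) * i * j) • (Φ ^ j * a * Ψ ^ j)) * Φ) =
        ζ ^ (i + (n - 1) * i * j) • (Φ ^ j * a * (Ψ ^ j * Φ)) := by
      intro j
      rw [smul_mul_assoc, smul_smul, ← pow_add]
      simp only [mul_assoc]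
    simp only [h1, h2]
    refine Basic_shift h _ _ (fun k => ?_) ?_
    · rw [hp]
      congr 1
      apply zeta_congr h.prim
      have e : i + (n - 1) * i * (k + 1) = (n - 1) * i * k + n * i := by
        have : n * i = (n - 1) * i + i := by
          conv_lhs => rw [← Basic_sub_one h0]
          ring
        rw [this]
        ring
      rw [e]
      exact (Nat.add_mul_mod_self_left _ _ _).symm
    · rw [h.pow, h.powPsi, pow_zero, pow_zero]
      congr 1
      apply zeta_congr h.prim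
      have e : i + (n - 1) * i * n = (i + (n - 1) * i * 0) + n * ((n - 1) * i) := by ring
      rw [e]
      exact Nat.add_mul_mod_self_left _ _ _
  unfold Hom cmp
  rw [mul_smul_comm, key, smul_mul_assoc, smul_comm]

theorem cmp_sum (h : Rot n ζ Φ Ψ) (a : A) : ∑ i ∈ Finset.range n, cmp n ζ Φ Ψ i a = a := by
  have hn : 0 < n := h.prim.pos
  unfold cmp
  rw [← Finset.smul_sum, Finset.sum_comm]
  have h1 : ∀ j ∈ Finset.range n,
      ∑ i ∈ Finset.range n, ζ ^ ((n - 1) * i * j) • (Φ ^ j * a * Ψ ^ j) =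
      if j = 0 then (n : O) • a else 0 := by
    intro j hj
    rw [← Finset.sum_smul]
    have e : ∀ i, ζ ^ ((n - 1) * i * j) = ζ ^ (((n - 1) * j) * i) := fun i => by
      rw [Basic_mul_swap]
    simp only [e]
    split_ifs with h0
    · subst h0
      simp
    · rw [h.prim.sum, zero_smul]
      rw [Finset.mem_range] at hj
      exact Basic_dvd h0 hj
  rw [Finset.sum_congr rfl h1, Finset.sum_ite_eq', if_pos (by simpa using hn)]
  exact inv_n h.prim a

theorem cmp_mem (T : Submodule O A) (hT : ∀ a ∈ T, Φ * a * Ψ ∈ T) {a : A} (ha : a ∈ T) (i : ℕ) :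
    cmp n ζ Φ Ψ i a ∈ T := by
  unfold cmp
  refine T.smul_mem _ (T.sum_mem fun j _ => T.smul_mem _ ?_)
  clear * - hT ha
  induction j with
  | zero => simpa using ha
  | succ j ih =>
    have := hT _ ih
    have e : Φ ^ (j + 1) * a * Ψ ^ (j + 1) = Φ * (Φ ^ j * a * Ψ ^ j) * Ψ := by
      rw [pow_succ', pow_succ]
      simp only [mul_assoc]
    rw [e]
    exact this

theorem cmp_zero {a : A} (ha : ∑ j ∈ Finset.range n, Φ ^ j * a * Ψ ^ j = 0) :
    cmp n ζ Φ Ψ 0 a = 0 := by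
  unfold cmp
  simp [ha]

end Pool.Agent.OrdR
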