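import Pool.Agent.OrdR.Defs

/-!
# Lower central series and derived series; an inequality
-/

set_option autoImplicit false

open scoped commutatorElement

namespace Pool.Agent.OrdR

open Pool.Agent.LgP Pool.Agent.OrdS

private theorem Cent_three {G : Type} [Group G] (A B C K : Subgroup G) [K.Normal]
    (h1 : ⁅⁅B, C⁆, A⁆ ≤ K) (h2 : ⁅⁅C, A⁆, B⁆ ≤ K) : ⁅⁅A, B⁆, C⁆ ≤ K := by
  have key : ∀ X : Subgroup G, X ≤ K ↔ X.map (QuotientGroup.mk' K) = ⊥ := by
    intro X
    rw [Subgroup.map_eq_bot_iff, QuotientGroup.ker_mk']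
  rw [key] at h1 h2 ⊢
  rw [Subgroup.map_commutator, Subgroup.map_commutator] at h1 h2 ⊢
  exact Subgroup.commutator_commutator_eq_bot_of_rotate h1 h2

theorem gam_normal {G : Type} [Group G] (N : Subgroup G) (hN : N.Normal) (j : ℕ) :
    (gam N j).Normal := by
  induction j with
  | zero => exact hN
  | succ j ih =>
    have := hN
    have := ih
    exact Subgroup.commutator_normal N (gam N j)

theorem gam_phi {G : Type} [Group G] (φ : G →* G) (N : Subgroup G) (hN : ∀ g ∈ N, φ g ∈ N)
    (j : ℕ) : ∀ g ∈ gam N j, φ g ∈ gam N j := by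
  induction j with
  | zero => exact hN
  | succ j ih =>
    have h1 : (gam N (j + 1)).map φ ≤ gam N (j + 1) := by
      change (⁅N, gam N j⁆).map φ ≤ ⁅N, gam N j⁆
      rw [Subgroup.map_commutator]
      refine Subgroup.commutator_mono ?_ ?_
      · rw [Subgroup.map_le_iff_le_comap]
        exact fun g hg => hN g hg
      · rw [Subgroup.map_le_iff_le_comap]
        exact fun g hg => ih g hg
    exact fun g hg => h1 (Subgroup.mem_map_of_mem φ hg)

theorem gam_le {G : Type} [Group G] (N : Subgroup G) (j : ℕ) : gam N j ≤ N := by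
  induction j with
  | zero => exact le_refl _
  | succ j ih =>
    change ⁅N, gam N j⁆ ≤ N
    exact le_trans (Subgroup.commutator_mono (le_refl _) ih) (Subgroup.commutator_le_self N)

/-- `[γ_(i+1), γ_(j+1)] ≤ γ_(i+j+2)` (three subgroups lemma) -/
theorem gam_comm {G : Type} [Group G] (N : Subgroup G) (hN : N.Normal) (i j : ℕ) :
    ⁅gam N i, gam N j⁆ ≤ gam N (i + j + 1) := by
  induction i generalizing j with
  | zero =>
    rw [Nat.zero_add]
    exact le_refl _
  | succ i ih =>
    have := gam_normal N hN (i + 1 + j + 1)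
    change ⁅⁅N, gam N i⁆, gam N j⁆ ≤ gam N (i + 1 + j + 1)
    refine Cent_three _ _ _ _ ?_ ?_
    · rw [Subgroup.commutator_comm ⁅gam N i, gam N j⁆ N]
      refine le_trans (Subgroup.commutator_mono (le_refl _) (ih j)) ?_
      have h1 : i + 1 + j + 1 = (i + j + 1) + 1 := by omega
      rw [h1]
      exact le_refl _
    · rw [Subgroup.commutator_comm (gam N j) N]
      change ⁅gam N (j + 1), gam N i⁆ ≤ _
      rw [Subgroup.commutator_comm]
      refine le_trans (ih (j + 1)) ?_
      have h1 : i + 1 + j + 1 = i + (j + 1) + 1 := by omega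
      rw [h1]

theorem derG_le_gam {G : Type} [Group G] (N : Subgroup G) (hN : N.Normal) (d : ℕ) :
    derG d N ≤ gam N (2 ^ d - 1) := by
  induction d with
  | zero => exact le_refl _
  | succ d ih =>
    change ⁅derG d N, derG d N⁆ ≤ _
    refine le_trans (Subgroup.commutator_mono ih ih) ?_
    refine le_trans (gam_comm N hN _ _) ?_
    have h0 : 0 < 2 ^ d := Nat.two_pow_pos d
    have h1 : 2 ^ (d + 1) - 1 = (2 ^ d - 1) + (2 ^ d - 1) + 1 := by
      rw [pow_succ]
      omega
    rw [h1]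

/-- `(1 + 1/M)^(2^d-1)` grows faster than `a^d` -/
theorem growth (a M : ℕ) (ha : 0 < a) (hM : 0 < M) :
    ∃ d : ℕ, a ^ d * M ^ (2 ^ d - 1) < (M + 1) ^ (2 ^ d - 1) := by
  have hsq : ∀ d : ℕ, 4 ≤ d → d * d ≤ 2 ^ d := by
    intro d hd
    induction d, hd using Nat.le_induction with
    | base => norm_num
    | succ d hd ih =>
      rw [pow_succ]
      nlinarith
  have hB : 2 * M ^ M ≤ (M + 1) ^ M := by
    have h2 := one_add_mul_le_pow (R := ℚ) (a := 1 / M) (by
        have : (0 : ℚ) ≤ 1 / M := by positivity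
        linarith) M
    have hM' : (M : ℚ) ≠ 0 := by exact_mod_cast hM.ne'
    have hM0 : (0 : ℚ) < M := by exact_mod_cast hM
    have h3 : (1 + (1 : ℚ) / M) ^ M = (M + 1) ^ M / M ^ M := by
      rw [← div_pow]
      congr 1
      field_simp
    rw [h3, mul_one_div, div_self hM', le_div_iff₀ (by positivity)] at h2
    have h4 : (2 : ℚ) * M ^ M ≤ (M + 1) ^ M := by linarith
    exact_mod_cast h4
  have hq : ∀ q : ℕ, 2 ^ q * M ^ (M * q) ≤ (M + 1) ^ (M * q) := by
    intro q
    rw [pow_mul, pow_mul, ← mul_pow]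
    exact Nat.pow_le_pow_left hB q
  have hk : ∀ q k : ℕ, M * q ≤ k → 2 ^ q * M ^ k ≤ (M + 1) ^ k := by
    intro q k h
    obtain ⟨r, rfl⟩ := Nat.exists_eq_add_of_le h
    rw [pow_add, pow_add, ← mul_assoc]
    exact Nat.mul_le_mul (hq q) (Nat.pow_le_pow_left (Nat.le_succ M) r)
  refine ⟨M * (a + 1) + 4, ?_⟩
  set d := M * (a + 1) + 4 with hd
  have h1 : M * (a * d + 1) ≤ 2 ^ d - 1 := by
    have h2 := hsq d (by omega)
    have h3 : M * (a * d + 1) + 1 ≤ d * d := by
      have h4 : M * (a + 1) * d = (d - 4) * d := by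
        congr 1
      have h5 : M * (a * d + 1) ≤ M * (a + 1) * d := by
        have : 1 ≤ d := by omega
        nlinarith [Nat.mul_le_mul_left M this]
      have h6 : (d - 4) * d + 1 ≤ d * d := by
        have h7 : d - 4 + 4 = d := by omega
        nlinarith
      omega
    omega
  have h2 := hk (a * d + 1) (2 ^ d - 1) h1
  refine lt_of_lt_of_le ?_ h2
  refine Nat.mul_lt_mul_of_pos_right ?_ (Nat.pow_pos hM)
  have h3 : a ^ d ≤ 2 ^ (a * d) := by
    rw [pow_mul]
    exact Nat.pow_le_pow_left (Nat.lt_two_pow_self).le d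
  exact lt_of_le_of_lt h3 (Nat.pow_lt_pow_right (by norm_num) (Nat.lt_succ_self _))

end Pool.Agent.OrdR
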