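import Pool.Agent.OrdS.Act

/-!
# OrdR: the coset principle for representations of groups with a splitting automorphism

`n` is the order of the automorphism, `φ` an endomorphism of the group `G`, `O` a commutative ring with a principal
`n`-th root of unity `ζ`, `n` invertible (`Prim O n ζ`). A representation of `(G, φ)` is an `O`-algebra `E` with
`Φ`, `Ψ = Φ⁻¹`, `Φ^n = 1`, a homomorphism `ρ : G →* E` with `Φ ρ(g) Ψ = ρ(φ g)`, and `(aug O ρ)^K = 0` for
some `K`. `ide n ζ Φ i` is the projection to the eigenspace `Φ = ζ^i` (`i : ℕ`, only `i` modulo `n` matters). The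
support is contained in `S ⊆ ZMod n` if `ide n ζ Φ i = 0` for all `i` with `(i : ZMod n) ∉ S`. `PS S` is the union of
all cosets `d + ⟨b⟩`, `b ≠ 0`, contained in `S`. `Tr n ζ φ S s`: the subgroup `derG s ⊤` acts trivially in all
representations with support in `S`. Theorem `thmR` (file `ThmR.lean`): `Tr (PS S) s` implies
`Tr S (s + f)` with `f` depending on `n` only.

Everything is written with algebras acting from the left: a submodule `M` of `E` is a left submodule if it is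
stable under `Φ` and all `ρ g`.
-/

set_option autoImplicit false

open scoped commutatorElement

namespace Pool.Agent.OrdR

open Pool.Agent.LgP Pool.Agent.OrdS

/-- `a` is homogeneous of degree `i` -/
def Hom {O A : Type} [CommRing O] [Ring A] [Algebra O A] (ζ : O) (Φ : A) (i : ℕ) (a : A) : Prop :=
  Φ * a = ζ ^ i • (a * Φ)

/-- the projection to the eigenspace `Φ = ζ^i` -/
noncomputable def ide (n : ℕ) {O A : Type} [CommRing O] [Ring A] [Algebra O A] (ζ : O) (Φ : A)
    (i : ℕ) : A :=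
  Ring.inverse (n : O) • ∑ j ∈ Finset.range n, ζ ^ ((n - 1) * i * j) • Φ ^ j

/-- the homogeneous component of degree `i` -/
noncomputable def cmp (n : ℕ) {O A : Type} [CommRing O] [Ring A] [Algebra O A] (ζ : O) (Φ Ψ : A)
    (i : ℕ) (a : A) : A :=
  Ring.inverse (n : O) • ∑ j ∈ Finset.range n, ζ ^ ((n - 1) * i * j) • (Φ ^ j * a * Ψ ^ j)

/-- `Φ` has order dividing `n`, with inverse `Ψ` -/
structure Rot (n : ℕ) {O A : Type} [CommRing O] [Ring A] [Algebra O A] (ζ : O) (Φ Ψ : A) :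
    Prop where
  prim : Prim O n ζ
  pq : Φ * Ψ = 1
  qp : Ψ * Φ = 1
  pow : Φ ^ n = 1

/-- representations of `(G, φ)` -/
structure Rep (n : ℕ) (O : Type) {E G : Type} [CommRing O] [Ring E] [Algebra O E] [Group G]
    (φ : G →* G) (Φ Ψ : E) (ρ : G →* E) : Prop where
  pq : Φ * Ψ = 1
  qp : Ψ * Φ = 1
  pow : Φ ^ n = 1
  rho : ∀ g, Φ * ρ g * Ψ = ρ (φ g)
  nil : ∃ K : ℕ, (aug O ρ) ^ K = ⊥

theorem Rep.rot {n : ℕ} {O E G : Type} [CommRing O] [Ring E] [Algebra O E] [Group G]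
    {φ : G →* G} {Φ Ψ : E} {ρ : G →* E} (h : Rep n O φ Φ Ψ ρ) {ζ : O} (hP : Prim O n ζ) :
    Rot n ζ Φ Ψ := ⟨hP, h.pq, h.qp, h.pow⟩

/-- the support is contained in `S` -/
def Supp (n : ℕ) {O E : Type} [CommRing O] [Ring E] [Algebra O E] (ζ : O) (Φ : E)
    (S : Set (ZMod n)) : Prop :=
  ∀ i : ℕ, (i : ZMod n) ∉ S → ide n ζ Φ i = 0

/-- the union of the nontrivial cosets contained in `S` -/
def PS {n : ℕ} (S : Set (ZMod n)) : Set (ZMod n) :=
  {d | ∃ b : ZMod n, b ≠ 0 ∧ ∀ k : ℕ, d + k • b ∈ S}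

/-- `derG s ⊤` acts trivially in all representations of `(G, φ)` with support in `S` -/
def Tr (n : ℕ) {O G : Type} [CommRing O] [Group G] (ζ : O) (φ : G →* G) (S : Set (ZMod n))
    (s : ℕ) : Prop :=
  ∀ (E : Type) [Ring E] [Algebra O E] (Φ Ψ : E) (ρ : G →* E), Rep n O φ Φ Ψ ρ →
    Supp n ζ Φ S → ∀ g ∈ derG s (⊤ : Subgroup G), ρ g = 1

/-- `E` is generated by `Φ` and the image of the group -/
def Gen (O : Type) {E G : Type} [CommRing O] [Ring E] [Algebra O E] [Group G] (Φ : E)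
    (ρ : G →* E) : Prop :=
  Algebra.adjoin O ({Φ} ∪ Set.range ρ) = ⊤

/-- the data of the Lie lemma: letters `P` -/
structure SysR (n : ℕ) {O A G : Type} [CommRing O] [Ring A] [Algebra O A] [Group G] (ζ : O)
    (φ : G →* G) (Φ Ψ : A) (ρ : G →* A) (P : Submodule O A) : Prop where
  prim : Prim O n ζ
  rep : Rep n O φ Φ Ψ ρ
  hΦ : ∀ x ∈ P, Φ * x * Ψ ∈ P
  hρ : ∀ g, ∀ x ∈ P, ρ g * x * ρ g⁻¹ ∈ P
  tr : ∀ a ∈ LC P, ∑ j ∈ Finset.range n, Φ ^ j * a * Ψ ^ j = 0
  gen : Algebra.adjoin O ({Φ} ∪ Set.range ρ ∪ (P : Set A)) = ⊤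

/-- the commutators of the letters with the elements of `N` -/
def XN (O : Type) {A G : Type} [CommRing O] [Ring A] [Algebra O A] [Group G] (ρ : G →* A)
    (P : Submodule O A) (N : Subgroup G) : Submodule O A :=
  Submodule.span O {y | ∃ x ∈ P, ∃ g ∈ N, y = ρ g * x * ρ g⁻¹ - x}

/-- the exponents of the Lie lemma -/
def MM (n : ℕ) : ℕ → ℕ
  | 0 => 1
  | r + 1 => n * n * MM n r + 1

/-- the exponent of the central steps -/
def MR (n : ℕ) : ℕ := MM n (2 ^ (n - 1) - 1)

/-- lower central series, as subgroups of the big group: `gam N j` is `γ_(j+1)(N)` -/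
def gam {G : Type} [Group G] (N : Subgroup G) : ℕ → Subgroup G
  | 0 => N
  | j + 1 => ⁅N, gam N j⁆

end Pool.Agent.OrdR
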