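import Pool.Agent.OrdR.LieR
import Pool.Agent.LgP.Krek

/-!
# The central step

`E` generated by `Φ`, `ρ`; `K ≤ G` normal and `φ`-stable, `F 0 = ⊤`, `F i = (augS O ρ K)^i * ⊤` (`top_augS`, `ideal_pow`). Apply
`grF_exists` (`OrdS/GrF.lean`) with `X = ↥K`, `ρ` and `φ` restricted to `K`. In the algebra `A'` obtained, `Φ' = cl 0 Φ`,
`Ψ' = cl 0 Ψ`, `ρ' g = cl 0 (ρ g)` (a monoid homomorphism on `G`), `P =` span of the `cl 1 (ρ k - 1)`, `k ∈ K`.
`Φ' x Ψ' ∈ P`, `ρ' g x ρ' g⁻¹ ∈ P` for `x ∈ P`; `LC P ≤ S'` has trace zero. Pass to the subalgebra `A` generated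
by `Φ'`, all `ρ' g` and `P` (as in `OrdS/Words.lean`) to get `SysR n ζ φ Φ' Ψ' ρ' P`; `aug` of `ρ'` is nilpotent; the support is in `S`
(`ide` of `Φ'` is `cl 0` of `ide` of `Φ`). `derL (2^(n-1)-1) (LC P) = ⊥` by `kreknin` (`LgP/Krek.lean`, conjugation
by `Φ'` as an algebra homomorphism, compare the end of `OrdS/Rec.lean`). So by `lieR` `X^(MR n) = ⊥`. For `u ∈ ⁅derG s ⊤, K⁆`,
`ρ u - 1 ∈ F 1` and `cl 1 (ρ u - 1) ∈ X`: the set of such `u ∈ K` is a subgroup (`ρ (u v) - 1 = (ρ u - 1) + (ρ v - 1) + (ρ u - 1)(ρ v - 1)`)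
and for `u = g k g⁻¹ k⁻¹`: `(ρ u - 1) = (ρ g (ρ k - 1) ρ g⁻¹ - (ρ k - 1)) ρ k⁻¹ ≡ ρ g (ρ k - 1) ρ g⁻¹ - (ρ k - 1)` modulo `F 2`. So a
product of `MR n` elements `ρ u - 1` has class `0` in degree `MR n`, i.e. lies in `F (MR n + 1)`.
-/

set_option linter.all false
set_option autoImplicit false

open scoped commutatorElement

namespace Pool.Agent.OrdR

open Pool.Agent.LgP Pool.Agent.OrdS

section aux

variable {O A : Type} [CommRing O] [Ring A] [Algebra O A]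

private theorem GrR_mr {M N P : Submodule O A} (h : N ≤ P) : M * N ≤ M * P :=
  Submodule.mul_le.mpr fun _ hm _ hn => Submodule.mul_mem_mul hm (h hn)

private theorem GrR_ml {M N P : Submodule O A} (h : N ≤ P) : N * M ≤ P * M :=
  Submodule.mul_le.mpr fun _ hm _ hn => Submodule.mul_mem_mul (h hm) hn

private theorem GrR_top : (⊤ : Submodule O A) * ⊤ = ⊤ := by
  apply le_antisymm le_top
  intro a _
  have : a = a * 1 := (mul_one a).symm
  rw [this]
  exact Submodule.mul_mem_mul trivial trivial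

/-- conjugation by `Φ` as an algebra homomorphism -/
private def GrR_conj {Φ Ψ : A} (h1 : Φ * Ψ = 1) (h2 : Ψ * Φ = 1) : A →ₐ[O] A where
  toFun a := Φ * a * Ψ
  map_one' := by rw [mul_one, h1]
  map_mul' a b := by
    have : (Φ * a * Ψ) * (Φ * b * Ψ) = Φ * a * (Ψ * Φ) * b * Ψ := by simp only [mul_assoc]
    rw [this, h2, mul_one]
    simp only [mul_assoc]
  map_zero' := by rw [mul_zero, zero_mul]
  map_add' a b := by rw [mul_add, add_mul]
  commutes' r := by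
    show Φ * algebraMap O A r * Ψ = _
    rw [← Algebra.commutes, mul_assoc, h1, mul_one]

private theorem GrR_iter {Φ Ψ : A} (h1 : Φ * Ψ = 1) (h2 : Ψ * Φ = 1) (j : ℕ) (a : A) :
    (⇑(GrR_conj (O := O) h1 h2))^[j] a = Φ ^ j * a * Ψ ^ j := by
  induction j generalizing a with
  | zero => simp
  | succ j ih =>
    rw [Function.iterate_succ_apply', ih, pow_succ' Φ j, pow_succ Ψ j]
    show Φ * (Φ ^ j * a * Ψ ^ j) * Ψ = _
    simp only [mul_assoc]

/-- `LC P` is stable under conjugation when `P` is -/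
private theorem GrR_LC {Φ Ψ : A} (h1 : Φ * Ψ = 1) (h2 : Ψ * Φ = 1) {P : Submodule O A}
    (hP : ∀ x ∈ P, Φ * x * Ψ ∈ P) : ∀ a ∈ LC P, Φ * a * Ψ ∈ LC P := by
  intro a ha
  have h3 : (LC P).map (GrR_conj (O := O) h1 h2).toLinearMap ≤ LC P := by
    rw [LC_map]
    apply LC_le (LC_lie P)
    rw [Submodule.map_le_iff_le_comap]
    intro x hx
    exact le_LC P (hP x hx)
  exact h3 ⟨a, ha, rfl⟩

/-- the Lie algebra generated by the letters is soluble -/
private theorem GrR_sol {n : ℕ} {G : Type} [Group G] {ζ : O} {φ : G →* G} {Φ Ψ : A} {ρ : G →* A}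
    {P : Submodule O A} (h : SysR n ζ φ Φ Ψ ρ P) : derL (2 ^ (n - 1) - 1) (LC P) = ⊥ := by
  have hrot : Rot n ζ Φ Ψ := h.rep.rot h.prim
  refine kreknin n ζ h.prim (GrR_conj h.rep.pq h.rep.qp) ?_ (LC P) (LC_lie P)
    (GrR_LC h.rep.pq h.rep.qp h.hΦ) ?_
  · intro a
    rw [GrR_iter, h.rep.pow, hrot.powPsi, one_mul, mul_one]
  · intro a ha
    rw [Finset.sum_congr rfl fun j _ => GrR_iter h.rep.pq h.rep.qp j a]
    exact h.tr a ha

end aux

/-- the Lie lemma inside a subalgebra -/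
private theorem GrR_sub {n : ℕ} {O A G : Type} [CommRing O] [Ring A] [Algebra O A] [Group G]
    {ζ : O} {φ : G →* G} {Φ Ψ : A} {ρ : G →* A} {S : Set (ZMod n)} {s : ℕ} (hP : Prim O n ζ)
    (hR : Rep n O φ Φ Ψ ρ) (hS : Supp n ζ Φ S) (hT : Tr n ζ φ (PS S) s)
    (P S' : Submodule O A) (hΦ : ∀ x ∈ P, Φ * x * Ψ ∈ P)
    (hρ : ∀ g, ∀ x ∈ P, ρ g * x * ρ g⁻¹ ∈ P) (hS' : IsLie S') (hPS' : P ≤ S')
    (htr : ∀ a ∈ S', ∑ j ∈ Finset.range n, Φ ^ j * a * Ψ ^ j = 0) :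
    (XN O ρ P (derG s ⊤)) ^ (MR n) = ⊥ := by
  obtain ⟨B, hB⟩ : ∃ B : Subalgebra O A,
      B = Algebra.adjoin O ({Φ} ∪ Set.range ρ ∪ (P : Set A)) := ⟨_, rfl⟩
  have hΦB : Φ ∈ B := by
    rw [hB]
    exact Algebra.subset_adjoin (Or.inl (Or.inl rfl))
  have hρB : ∀ g, ρ g ∈ B := by
    intro g
    rw [hB]
    exact Algebra.subset_adjoin (Or.inl (Or.inr ⟨g, rfl⟩))
  have hPB : ∀ x ∈ P, x ∈ B := by
    intro x hx
    rw [hB]
    exact Algebra.subset_adjoin (Or.inr hx)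
  have hΨB : Ψ ∈ B := by
    rw [(hR.rot hP).psi]
    exact pow_mem hΦB _
  set f : B →ₐ[O] A := B.val with hf
  have hfi : Function.Injective f := Subtype.val_injective
  set ρ' : G →* B :=
    { toFun := fun g => ⟨ρ g, hρB g⟩
      map_one' := Subtype.ext (map_one ρ)
      map_mul' := fun g h => Subtype.ext (map_mul ρ g h) } with hρ'
  set P' : Submodule O B := P.comap f.toLinearMap with hP'
  have hPm : P'.map f.toLinearMap = P := by
    apply le_antisymm (Submodule.map_comap_le _ _)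
    intro x hx
    exact ⟨⟨x, hPB x hx⟩, hx, rfl⟩
  have haug : (aug O ρ').map f.toLinearMap = aug O ρ := by
    unfold aug
    rw [Submodule.map_span]
    congr 1
    ext x
    constructor
    · rintro ⟨_, ⟨g, rfl⟩, rfl⟩
      exact ⟨g, rfl⟩
    · rintro ⟨g, rfl⟩
      exact ⟨_, ⟨g, rfl⟩, rfl⟩
  have hinj : ∀ Q : Submodule O B, Q.map f.toLinearMap = ⊥ → Q = ⊥ := by
    intro Q hQ
    rw [eq_bot_iff]
    intro x hx
    have h1 : f x ∈ Q.map f.toLinearMap := ⟨x, hx, rfl⟩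
    rw [hQ, Submodule.mem_bot] at h1
    rw [Submodule.mem_bot]
    apply hfi
    rw [h1, map_zero]
  have hsys : SysR n ζ φ (⟨Φ, hΦB⟩ : B) (⟨Ψ, hΨB⟩ : B) ρ' P' := by
    refine ⟨hP, ⟨Subtype.ext hR.pq, Subtype.ext hR.qp, ?_, ?_, ?_⟩, ?_, ?_, ?_, ?_⟩
    · exact Subtype.ext hR.pow
    · intro g
      exact Subtype.ext (hR.rho g)
    · obtain ⟨k, hk⟩ := hR.nil
      refine ⟨k, hinj _ ?_⟩
      have e : ((aug O ρ') ^ k).map f.toLinearMap = ((aug O ρ').map f.toLinearMap) ^ k :=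
        Submodule.map_pow _ _ _
      rw [e, haug, hk]
    · intro x hx
      exact hΦ (f x) hx
    · intro g x hx
      exact hρ g (f x) hx
    · intro a ha
      have h1 : f a ∈ S' := by
        have h2 : f a ∈ (LC P').map f.toLinearMap := ⟨a, ha, rfl⟩
        rw [LC_map, hPm] at h2
        exact LC_le hS' hPS' h2
      apply hfi
      rw [map_zero, ← htr (f a) h1, map_sum]
      refine Finset.sum_congr rfl fun j _ => ?_
      rw [map_mul, map_mul, map_pow, map_pow]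
      rfl
    · have h1 : Subalgebra.map f (Algebra.adjoin O ({(⟨Φ, hΦB⟩ : B)} ∪ Set.range ρ' ∪
          (P' : Set B))) = Subalgebra.map f ⊤ := by
        rw [AlgHom.map_adjoin, Algebra.map_top]
        have h2 : f.range = B := Subalgebra.range_val B
        have e1 : (⇑f '' (P' : Set B)) = (P : Set A) := by
          rw [← hPm]
          rfl
        have e2 : (⇑f '' (Set.range ρ')) = Set.range ρ := by
          rw [← Set.range_comp]
          rfl
        have e0 : (⇑f '' ({(⟨Φ, hΦB⟩ : B)} ∪ Set.range ρ' ∪ (P' : Set B))) =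
            {Φ} ∪ Set.range ρ ∪ (P : Set A) := by
          rw [Set.image_union, Set.image_union, Set.image_singleton, e1, e2]
          rfl
        rw [h2, e0]
        exact hB.symm
      exact Subalgebra.map_injective hfi h1
  have hsupp : Supp n ζ (⟨Φ, hΦB⟩ : B) S := Supp.of_inj f hfi hS
  have h1 := lieR hT (2 ^ (n - 1) - 1) B _ _ ρ' P' hsys hsupp (GrR_sol hsys)
  have h2 : XN O ρ P (derG s ⊤) ≤ (XN O ρ' P' (derG s ⊤)).map f.toLinearMap := by
    unfold XN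
    rw [Submodule.span_le]
    rintro _ ⟨x, hx, g, hg, rfl⟩
    exact ⟨_, Submodule.subset_span ⟨⟨x, hPB x hx⟩, hx, g, hg, rfl⟩, rfl⟩
  have h3 : ((XN O ρ' P' (derG s ⊤)) ^ (MR n)).map f.toLinearMap =
      ((XN O ρ' P' (derG s ⊤)).map f.toLinearMap) ^ (MR n) := Submodule.map_pow _ _ _
  rw [eq_bot_iff]
  calc (XN O ρ P (derG s ⊤)) ^ (MR n)
      ≤ ((XN O ρ' P' (derG s ⊤)).map f.toLinearMap) ^ (MR n) := pow_le_pow_left' h2 _
    _ = ((XN O ρ' P' (derG s ⊤)) ^ (MR n)).map f.toLinearMap := h3.symm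
    _ = ⊥ := by
      have h4 : (XN O ρ' P' (derG s ⊤)) ^ (MR n) = ⊥ := h1
      rw [h4, Submodule.map_bot]

theorem central {n : ℕ} {O E G : Type} [CommRing O] [Ring E] [Algebra O E] [Group G] {ζ : O}
    {φ : G →* G} {Φ Ψ : E} {ρ : G →* E} {S : Set (ZMod n)} {s : ℕ} (hP : Prim O n ζ)
    (hspl : Split n φ) (hR : Rep n O φ Φ Ψ ρ) (hgen : Gen O Φ ρ) (hS : Supp n ζ Φ S)
    (hT : Tr n ζ φ (PS S) s) (K : Subgroup G) (hK : K.Normal) (hKφ : ∀ k ∈ K, φ k ∈ K) :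
    (augS O ρ ⁅derG s (⊤ : Subgroup G), K⁆) ^ (MR n) ≤ (augS O ρ K) ^ (MR n + 1) * ⊤ := by
  set I := augS O ρ K with hI
  have hb : (⊤ : Submodule O E) * I ≤ I * ⊤ := top_augS hR hgen K hK hKφ
  have hmul : ∀ i j : ℕ, (I ^ i * (⊤ : Submodule O E)) * (I ^ j * ⊤) ≤ I ^ (i + j) * ⊤ := by
    intro i j
    calc (I ^ i * (⊤ : Submodule O E)) * (I ^ j * ⊤) = I ^ i * (⊤ * I ^ j) * ⊤ := by
          simp only [mul_assoc]
      _ ≤ I ^ i * (I ^ j * ⊤) * ⊤ := GrR_ml (GrR_mr (top_pow I hb j))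
      _ = I ^ (i + j) * (⊤ * ⊤) := by rw [pow_add]; simp only [mul_assoc]
      _ = I ^ (i + j) * ⊤ := by rw [GrR_top]
  have hanti : ∀ i : ℕ, I ^ (i + 1) * (⊤ : Submodule O E) ≤ I ^ i * ⊤ := by
    intro i
    calc I ^ (i + 1) * (⊤ : Submodule O E) = I ^ i * (I * ⊤) := by rw [pow_succ, mul_assoc]
      _ ≤ I ^ i * ⊤ := GrR_mr le_top
  have hF0 : ∀ x : E, x ∈ I ^ 0 * (⊤ : Submodule O E) := by
    intro x
    rw [pow_zero, one_mul]
    trivial
  have hle : ∀ Q : Submodule O E, Q ≤ Q * ⊤ := by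
    intro Q x hx
    have := Submodule.mul_mem_mul hx (show (1 : E) ∈ (⊤ : Submodule O E) from trivial)
    rwa [mul_one] at this
  have hρ1 : ∀ x : K, (ρ.comp K.subtype) x - 1 ∈ I ^ 1 * (⊤ : Submodule O E) := by
    intro x
    apply hle
    rw [pow_one]
    exact Submodule.subset_span ⟨x, x.2, rfl⟩
  set φ' : K →* K := (φ.comp K.subtype).codRestrict K (fun k => hKφ k k.2) with hφ'
  have hφ'c : ∀ (j : ℕ) (k : K), (((⇑φ')^[j] k : K) : G) = (⇑φ)^[j] (k : G) := by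
    intro j
    induction j with
    | zero => intro k; rfl
    | succ j ih =>
      intro k
      rw [Function.iterate_succ_apply', Function.iterate_succ_apply', ← ih]
      rfl
  have hspl' : Split n φ' := by
    intro k
    apply Subtype.ext
    have h1 := hspl (k : G)
    have h2 : ((((List.range n).map fun j => (⇑φ')^[j] k).prod : K) : G) =
        ((List.range n).map fun j => (⇑φ)^[j] (k : G)).prod := by
      rw [← Subgroup.coe_subtype, map_list_prod, List.map_map]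
      congr 1
      apply List.map_congr_left
      intro j _
      exact hφ'c j k
    rw [h2, h1]
    rfl
  obtain ⟨A', _, _, cl, S', c1, c2, c3, c4, c5, c6⟩ := grF_exists n
    (fun i => I ^ i * (⊤ : Submodule O E)) (hF0 1) hmul hanti Φ Ψ (hF0 Φ) (hF0 Ψ) hR.pq hR.qp
    φ' (ρ.comp K.subtype) hρ1 (fun k => hR.rho k) hspl'
  -- the algebra homomorphism onto the part of degree zero
  set π : E →ₐ[O] A' := AlgHom.ofLinearMap
    ((cl 0).comp (LinearMap.codRestrict (I ^ 0 * (⊤ : Submodule O E)) LinearMap.id hF0))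
    c3 (fun x y => (c2 0 0 ⟨x, hF0 x⟩ ⟨y, hF0 y⟩ ⟨x * y, hF0 _⟩ rfl).symm) with hπ
  have hπa : ∀ x : E, π x = cl 0 ⟨x, hF0 x⟩ := fun x => rfl
  set ρ₁ : G →* A' := (π : E →* A').comp ρ with hρ₁
  have hR' : Rep n O φ (π Φ) (π Ψ) ρ₁ := hR.map π
  have hS1 : Supp n ζ (π Φ) S := hS.map π
  -- the letters
  set l : K → A' := fun k => cl 1 ⟨ρ k - 1, hρ1 k⟩ with hl
  set P : Submodule O A' := Submodule.span O (Set.range l) with hPdef
  have hconj : ∀ (a b : E) (k k' : K), a * b = 1 → a * ρ k * b = ρ k' →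
      π a * l k * π b = l k' := by
    intro a b k k' hab h
    have m0 : a * (ρ k - 1) ∈ I ^ (0 + 1) * (⊤ : Submodule O E) :=
      hmul 0 1 (Submodule.mul_mem_mul (hF0 a) (hρ1 k))
    have e1 := c2 0 1 ⟨a, hF0 a⟩ ⟨ρ k - 1, hρ1 k⟩ ⟨a * (ρ k - 1), m0⟩ rfl
    have e2 := c2 (0 + 1) 0 ⟨a * (ρ k - 1), m0⟩ ⟨b, hF0 b⟩ ⟨ρ k' - 1, hρ1 k'⟩ (by
      show ρ k' - 1 = a * (ρ k - 1) * b
      rw [mul_sub, sub_mul, h, mul_one, hab])
    rw [hπa, hπa, hl]
    show cl 0 ⟨a, hF0 a⟩ * cl 1 ⟨ρ k - 1, hρ1 k⟩ * cl 0 ⟨b, hF0 b⟩ = _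
    rw [e1]
    exact e2
  have hΦl : ∀ k : K, π Φ * l k * π Ψ = l (φ' k) := fun k =>
    hconj Φ Ψ k (φ' k) hR.pq (hR.rho k)
  have hρl : ∀ (g : G) (k : K), ρ₁ g * l k * ρ₁ g⁻¹ = l ⟨g * k * g⁻¹, hK.conj_mem k k.2 g⟩ := by
    intro g k
    refine hconj (ρ g) (ρ g⁻¹) k _ ?_ ?_
    · rw [← map_mul, mul_inv_cancel, map_one]
    · rw [← map_mul, ← map_mul]
  have hPΦ : ∀ x ∈ P, π Φ * x * π Ψ ∈ P := by
    intro x hx
    rw [hPdef] at hx
    induction hx using Submodule.span_induction with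
    | mem x h =>
      obtain ⟨k, rfl⟩ := h
      rw [hΦl]
      exact Submodule.subset_span ⟨_, rfl⟩
    | zero => rw [mul_zero, zero_mul]; exact Submodule.zero_mem _
    | add x y _ _ hx hy => rw [mul_add, add_mul]; exact Submodule.add_mem _ hx hy
    | smul r x _ hx =>
      rw [mul_smul_comm, smul_mul_assoc]
      exact Submodule.smul_mem _ r hx
  have hPρ : ∀ g, ∀ x ∈ P, ρ₁ g * x * ρ₁ g⁻¹ ∈ P := by
    intro g x hx
    rw [hPdef] at hx
    induction hx using Submodule.span_induction with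
    | mem x h =>
      obtain ⟨k, rfl⟩ := h
      rw [hρl]
      exact Submodule.subset_span ⟨_, rfl⟩
    | zero => rw [mul_zero, zero_mul]; exact Submodule.zero_mem _
    | add x y _ _ hx hy => rw [mul_add, add_mul]; exact Submodule.add_mem _ hx hy
    | smul r x _ hx =>
      rw [mul_smul_comm, smul_mul_assoc]
      exact Submodule.smul_mem _ r hx
  have hPS : P ≤ S' := by
    rw [hPdef, Submodule.span_le]
    rintro _ ⟨k, rfl⟩
    exact c5 0 k (hρ1 k)
  have hX := GrR_sub hP hR' hS1 hT P S' hPΦ hPρ c4 hPS c6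
  set X := XN O ρ₁ P (derG s (⊤ : Subgroup G)) with hXdef
  -- the letters are additive
  have hladd : ∀ k k' : K, l (k * k') = l k + l k' := by
    intro k k'
    have m2 : (ρ k - 1) * (ρ k' - 1) ∈ I ^ (1 + 1) * (⊤ : Submodule O E) :=
      hmul 1 1 (Submodule.mul_mem_mul (hρ1 k) (hρ1 k'))
    have e0 : (⟨ρ (k * k' : K) - 1, hρ1 (k * k')⟩ : ↥(I ^ 1 * (⊤ : Submodule O E))) =
        ⟨ρ k - 1, hρ1 k⟩ + ⟨ρ k' - 1, hρ1 k'⟩ + ⟨(ρ k - 1) * (ρ k' - 1), hanti 1 m2⟩ := by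
      apply Subtype.ext
      show ρ ((k : G) * (k' : G)) - 1 = (ρ k - 1) + (ρ k' - 1) + (ρ k - 1) * (ρ k' - 1)
      rw [map_mul]
      noncomm_ring
    have e1 : cl 1 ⟨(ρ k - 1) * (ρ k' - 1), hanti 1 m2⟩ = 0 := (c1 1 _).mpr m2
    show cl 1 ⟨ρ (k * k' : K) - 1, hρ1 (k * k')⟩ = _
    rw [e0, map_add, map_add, e1, add_zero]
  have hlone : l 1 = 0 := by
    have := hladd 1 1
    rw [mul_one] at this
    exact (add_eq_left.mp this.symm)
  have hlinv : ∀ k : K, l k⁻¹ = -l k := by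
    intro k
    have := hladd k k⁻¹
    rw [mul_inv_cancel, hlone] at this
    exact (neg_eq_of_add_eq_zero_right this.symm).symm
  -- the subgroup of the elements with letter in `X`
  let W : Subgroup G :=
    { carrier := {u | ∃ h : u ∈ K, l ⟨u, h⟩ ∈ X}
      mul_mem' := by
        rintro u v ⟨hu, hu'⟩ ⟨hv, hv'⟩
        refine ⟨K.mul_mem hu hv, ?_⟩
        have := hladd ⟨u, hu⟩ ⟨v, hv⟩
        have e : (⟨u, hu⟩ : K) * ⟨v, hv⟩ = ⟨u * v, K.mul_mem hu hv⟩ := rfl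
        rw [e] at this
        rw [this]
        exact Submodule.add_mem _ hu' hv'
      one_mem' := by
        refine ⟨K.one_mem, ?_⟩
        have e : (⟨1, K.one_mem⟩ : K) = 1 := rfl
        rw [e, hlone]
        exact Submodule.zero_mem _
      inv_mem' := by
        rintro u ⟨hu, hu'⟩
        refine ⟨K.inv_mem hu, ?_⟩
        have := hlinv ⟨u, hu⟩
        have e : (⟨u, hu⟩ : K)⁻¹ = ⟨u⁻¹, K.inv_mem hu⟩ := rfl
        rw [e] at this
        rw [this]
        exact Submodule.neg_mem _ hu' }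
  have hUW : ⁅derG s (⊤ : Subgroup G), K⁆ ≤ W := by
    rw [Subgroup.commutator_le]
    intro g hg k hk
    have m1 : g * k * g⁻¹ ∈ K := hK.conj_mem k hk g
    have m2 : ⁅g, k⁆ ∈ K := by
      rw [commutatorElement_def]
      exact K.mul_mem m1 (K.inv_mem hk)
    refine ⟨m2, ?_⟩
    have e : (⟨⁅g, k⁆, m2⟩ : K) = ⟨g * k * g⁻¹, m1⟩ * (⟨k, hk⟩ : K)⁻¹ :=
      Subtype.ext (commutatorElement_def g k)
    rw [e, hladd, hlinv, ← hρl g ⟨k, hk⟩, ← sub_eq_add_neg]
    exact Submodule.subset_span ⟨_, Submodule.subset_span ⟨⟨k, hk⟩, rfl⟩, g, hg, rfl⟩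
  -- the elements with class in the powers of `X`
  have hstep : ∀ m : ℕ, ∀ x ∈ (augS O ρ ⁅derG s (⊤ : Subgroup G), K⁆) ^ m,
      ∃ h : x ∈ I ^ m * (⊤ : Submodule O E), cl m ⟨x, h⟩ ∈ X ^ m := by
    intro m
    induction m with
    | zero =>
      intro x hx
      rw [pow_zero, Submodule.mem_one] at hx
      obtain ⟨r, rfl⟩ := hx
      refine ⟨hF0 _, ?_⟩
      rw [← hπa, AlgHom.commutes, pow_zero, Submodule.mem_one]
      exact ⟨r, rfl⟩
    | succ m ih =>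
      intro x hx
      rw [pow_succ] at hx
      have h1 : ∀ y ∈ augS O ρ ⁅derG s (⊤ : Subgroup G), K⁆,
          ∃ h : y ∈ I ^ 1 * (⊤ : Submodule O E), cl 1 ⟨y, h⟩ ∈ X := by
        intro y hy
        unfold augS at hy
        induction hy using Submodule.span_induction with
        | mem y h =>
          obtain ⟨u, hu, rfl⟩ := h
          obtain ⟨hu1, hu2⟩ := hUW hu
          exact ⟨hρ1 ⟨u, hu1⟩, hu2⟩
        | zero =>
          refine ⟨Submodule.zero_mem _, ?_⟩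
          have : (⟨0, Submodule.zero_mem _⟩ : ↥(I ^ 1 * (⊤ : Submodule O E))) = 0 := rfl
          rw [this, map_zero]
          exact Submodule.zero_mem _
        | add y z _ _ hy hz =>
          obtain ⟨hy1, hy2⟩ := hy
          obtain ⟨hz1, hz2⟩ := hz
          refine ⟨Submodule.add_mem _ hy1 hz1, ?_⟩
          have : (⟨y + z, Submodule.add_mem _ hy1 hz1⟩ : ↥(I ^ 1 * (⊤ : Submodule O E))) =
            ⟨y, hy1⟩ + ⟨z, hz1⟩ := rfl
          rw [this, map_add]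
          exact Submodule.add_mem _ hy2 hz2
        | smul r y _ hy =>
          obtain ⟨hy1, hy2⟩ := hy
          refine ⟨Submodule.smul_mem _ r hy1, ?_⟩
          have : (⟨r • y, Submodule.smul_mem _ r hy1⟩ : ↥(I ^ 1 * (⊤ : Submodule O E))) =
            r • ⟨y, hy1⟩ := rfl
          rw [this, map_smul]
          exact Submodule.smul_mem _ r hy2
      induction hx using Submodule.mul_induction_on' with
      | mem_mul_mem a ha b hb' =>
        obtain ⟨ha1, ha2⟩ := ih a ha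
        obtain ⟨hb1, hb2⟩ := h1 b hb'
        have m1 : a * b ∈ I ^ (m + 1) * (⊤ : Submodule O E) :=
          hmul m 1 (Submodule.mul_mem_mul ha1 hb1)
        refine ⟨m1, ?_⟩
        rw [← c2 m 1 ⟨a, ha1⟩ ⟨b, hb1⟩ ⟨a * b, m1⟩ rfl, pow_succ]
        exact Submodule.mul_mem_mul ha2 hb2
      | add y _ z _ hy hz =>
        obtain ⟨hy1, hy2⟩ := hy
        obtain ⟨hz1, hz2⟩ := hz
        refine ⟨Submodule.add_mem _ hy1 hz1, ?_⟩
        have : (⟨y + z, Submodule.add_mem _ hy1 hz1⟩ : ↥(I ^ (m + 1) * (⊤ : Submodule O E))) =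
          ⟨y, hy1⟩ + ⟨z, hz1⟩ := rfl
        rw [this, map_add]
        exact Submodule.add_mem _ hy2 hz2
  intro x hx
  obtain ⟨h1, h2⟩ := hstep (MR n) x hx
  rw [hX, Submodule.mem_bot] at h2
  exact (c1 (MR n) ⟨x, h1⟩).mp h2

end Pool.Agent.OrdR
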