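import Pool.Agent.OrdR.Defs

/-!
# The ideals `(augS O ρ K)^i * ⊤`

`K` normal and `φ`-stable, `E` generated by `Φ` and the image of `ρ`. `Φ (ρ k - 1) = (ρ (φ k) - 1) Φ`,
`ρ g (ρ k - 1) = (ρ (g k g⁻¹) - 1) ρ g`; the set of `a` with `a * augS K ≤ augS K * ⊤` is a subalgebra (compare
`Rec_norm` in `OrdS/Rec.lean`).
-/

set_option autoImplicit false

open scoped commutatorElement

namespace Pool.Agent.OrdR

open Pool.Agent.LgP Pool.Agent.OrdS

variable {n : ℕ} {O E G : Type} [CommRing O] [Ring E] [Algebra O E] [Group G] {φ : G →* G}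
  {Φ Ψ : E} {ρ : G →* E}

private theorem Ideal_top_mul_top : (⊤ : Submodule O E) * ⊤ = ⊤ := by
  rw [eq_top_iff]
  intro x _
  have h1 : (1 : E) * x ∈ (⊤ : Submodule O E) * ⊤ := Submodule.mul_mem_mul trivial trivial
  rwa [one_mul] at h1

private theorem Ideal_le_top_mul (b : Submodule O E) : b ≤ (⊤ : Submodule O E) * b := by
  intro x hx
  have h1 : (1 : E) * x ∈ (⊤ : Submodule O E) * b := Submodule.mul_mem_mul trivial hx
  rwa [one_mul] at h1

private theorem Ideal_mem {K : Subgroup G} {k : G} (hk : k ∈ K) : ρ k - 1 ∈ augS O ρ K :=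
  Submodule.subset_span ⟨k, hk, rfl⟩

private theorem Ideal_left {K : Subgroup G} (a : E)
    (ha : ∀ k ∈ K, a * (ρ k - 1) ∈ augS O ρ K * (⊤ : Submodule O E)) :
    ∀ β ∈ augS O ρ K, a * β ∈ augS O ρ K * (⊤ : Submodule O E) := by
  intro β hβ
  unfold augS at hβ
  induction hβ using Submodule.span_induction with
  | mem x h =>
    obtain ⟨k, hk, rfl⟩ := h
    exact ha k hk
  | zero => rw [mul_zero]; exact Submodule.zero_mem _
  | add x y _ _ hx hy => rw [mul_add]; exact Submodule.add_mem _ hx hy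
  | smul r x _ hx => rw [mul_smul_comm]; exact Submodule.smul_mem _ r hx

theorem top_augS (hR : Rep n O φ Φ Ψ ρ) (hgen : Gen O Φ ρ) (K : Subgroup G) (hK : K.Normal)
    (hKφ : ∀ k ∈ K, φ k ∈ K) : (⊤ : Submodule O E) * augS O ρ K ≤ augS O ρ K * ⊤ := by
  let T : Subalgebra O E :=
    { carrier := {a | ∀ β ∈ augS O ρ K, a * β ∈ augS O ρ K * (⊤ : Submodule O E)}
      mul_mem' := by
        intro a a' ha ha' β hβ
        have h1 : a * a' * β = a * (a' * β) := mul_assoc _ _ _
        rw [h1]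
        have h2 := ha' β hβ
        refine Submodule.mul_induction_on h2 ?_ ?_
        · intro γ hγ c _
          rw [← mul_assoc]
          have h3 : a * γ * c ∈ augS O ρ K * (⊤ : Submodule O E) * ⊤ :=
            Submodule.mul_mem_mul (ha γ hγ) trivial
          rwa [mul_assoc (augS O ρ K), Ideal_top_mul_top] at h3
        · intro u v hu hv
          rw [mul_add]
          exact Submodule.add_mem _ hu hv
      add_mem' := by
        intro a a' ha ha' β hβ
        rw [add_mul]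
        exact Submodule.add_mem _ (ha β hβ) (ha' β hβ)
      algebraMap_mem' := by
        intro r β hβ
        have h1 : algebraMap O E r * β = β * algebraMap O E r := Algebra.commutes r β
        rw [h1]
        exact Submodule.mul_mem_mul hβ trivial }
  have hT : T = ⊤ := by
    rw [eq_top_iff, ← hgen, Algebra.adjoin_le_iff]
    rintro a (ha | ⟨g, rfl⟩)
    · rw [Set.mem_singleton_iff.1 ha]
      refine Ideal_left Φ fun k hk => ?_
      have h1 : Φ * (ρ k - 1) = (ρ (φ k) - 1) * Φ := by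
        rw [← hR.rho k, mul_sub, sub_mul, mul_one, one_mul, mul_assoc (Φ * ρ k), hR.qp, mul_one]
      rw [h1]
      exact Submodule.mul_mem_mul (Ideal_mem (hKφ k hk)) trivial
    · refine Ideal_left (ρ g) fun k hk => ?_
      have h1 : ρ g * (ρ k - 1) = (ρ (g * k * g⁻¹) - 1) * ρ g := by
        rw [sub_mul, ← map_mul, mul_sub, ← map_mul, mul_one, one_mul]
        congr 2
        group
      rw [h1]
      exact Submodule.mul_mem_mul (Ideal_mem (hK.conj_mem k hk g)) trivial
  rw [Submodule.mul_le]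
  intro a _ β hβ
  have h1 : a ∈ T := by rw [hT]; trivial
  exact h1 β hβ

/-- a submodule `b` with `⊤ b ≤ b ⊤` -/
theorem top_pow (b : Submodule O E) (hb : (⊤ : Submodule O E) * b ≤ b * ⊤) (i : ℕ) :
    (⊤ : Submodule O E) * b ^ i ≤ b ^ i * ⊤ := by
  induction i with
  | zero => rw [pow_zero, one_mul, mul_one]
  | succ i ih =>
    calc (⊤ : Submodule O E) * b ^ (i + 1) = (⊤ * b ^ i) * b := by rw [pow_succ, mul_assoc]
      _ ≤ (b ^ i * ⊤) * b := mul_le_mul' ih le_rfl
      _ = b ^ i * (⊤ * b) := mul_assoc _ _ _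
      _ ≤ b ^ i * (b * ⊤) := mul_le_mul' le_rfl hb
      _ = b ^ (i + 1) * ⊤ := by rw [pow_succ, mul_assoc]

theorem ideal_pow (b : Submodule O E) (hb : (⊤ : Submodule O E) * b ≤ b * ⊤) (i : ℕ) :
    (b * (⊤ : Submodule O E)) ^ (i + 1) = b ^ (i + 1) * ⊤ := by
  induction i with
  | zero => rw [zero_add, pow_one, pow_one]
  | succ i ih =>
    rw [pow_succ, ih]
    apply le_antisymm
    · calc b ^ (i + 1) * ⊤ * (b * ⊤) = b ^ (i + 1) * (⊤ * b) * ⊤ := by simp only [mul_assoc]
        _ ≤ b ^ (i + 1) * (b * ⊤) * ⊤ := mul_le_mul' (mul_le_mul' le_rfl hb) le_rfl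
        _ = b ^ (i + 1 + 1) * ⊤ := by
          rw [pow_succ b (i + 1)]
          simp only [mul_assoc]
          rw [Ideal_top_mul_top]
    · have h1 : b ^ (i + 1 + 1) * (⊤ : Submodule O E) = b ^ (i + 1) * (b * ⊤) := by
        rw [pow_succ b (i + 1), mul_assoc]
      have h2 : b ^ (i + 1) * (b * (⊤ : Submodule O E)) ≤ b ^ (i + 1) * ((⊤ * b) * ⊤) :=
        mul_le_mul' le_rfl (mul_le_mul' (Ideal_le_top_mul b) le_rfl)
      have h3 : b ^ (i + 1) * (((⊤ : Submodule O E) * b) * ⊤) = b ^ (i + 1) * ⊤ * (b * ⊤) := by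
        simp only [mul_assoc]
      rw [h1, ← h3]
      exact h2

theorem augS_mono {K L : Subgroup G} (h : K ≤ L) : augS O ρ K ≤ augS O ρ L := by
  unfold augS
  apply Submodule.span_mono
  rintro _ ⟨k, hk, rfl⟩
  exact ⟨k, h hk, rfl⟩

theorem augS_le_aug (K : Subgroup G) : augS O ρ K ≤ aug O ρ := by
  unfold augS aug
  apply Submodule.span_mono
  rintro _ ⟨k, hk, rfl⟩
  exact ⟨k, rfl⟩

/-- nilpotency -/
theorem augS_nil (hR : Rep n O φ Φ Ψ ρ) (K : Subgroup G) : ∃ m : ℕ, (augS O ρ K) ^ m = ⊥ := by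
  obtain ⟨m, hm⟩ := hR.nil
  refine ⟨m, ?_⟩
  rw [eq_bot_iff, ← hm]
  exact pow_le_pow_left' (augS_le_aug K) m

/-- `augS O ρ K` is closed under multiplication and under multiplication by `ρ k` -/
theorem augS_mul (K : Subgroup G) : augS O ρ K * augS O ρ K ≤ augS O ρ K := by
  conv_lhs => unfold augS
  rw [Submodule.span_mul_span, Submodule.span_le]
  rintro _ ⟨_, ⟨a, ha, rfl⟩, _, ⟨b, hb, rfl⟩, rfl⟩
  have h1 : (ρ a - 1) * (ρ b - 1) = (ρ (a * b) - 1) - (ρ a - 1) - (ρ b - 1) := by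
    rw [map_mul]
    noncomm_ring
  show (ρ a - 1) * (ρ b - 1) ∈ augS O ρ K
  rw [h1]
  exact Submodule.sub_mem _ (Submodule.sub_mem _ (Ideal_mem (K.mul_mem ha hb)) (Ideal_mem ha))
    (Ideal_mem hb)

theorem augS_rho (K : Subgroup G) {k : G} (hk : k ∈ K) {x : E} (hx : x ∈ augS O ρ K) :
    ρ k * x ∈ augS O ρ K := by
  unfold augS at hx
  induction hx using Submodule.span_induction with
  | mem x h =>
    obtain ⟨m, hm, rfl⟩ := h
    have h1 : ρ k * (ρ m - 1) = (ρ (k * m) - 1) - (ρ k - 1) := by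
      rw [map_mul]
      noncomm_ring
    rw [h1]
    exact Submodule.sub_mem _ (Ideal_mem (K.mul_mem hk hm)) (Ideal_mem hk)
  | zero => rw [mul_zero]; exact Submodule.zero_mem _
  | add x y _ _ hx hy => rw [mul_add]; exact Submodule.add_mem _ hx hy
  | smul a x _ hx => rw [mul_smul_comm]; exact Submodule.smul_mem _ a hx

/-- conjugation by `Φ` -/
theorem augS_phi (hR : Rep n O φ Φ Ψ ρ) (K : Subgroup G) (hKφ : ∀ k ∈ K, φ k ∈ K) (i : ℕ) :
    ∀ x ∈ (augS O ρ K) ^ i, Φ * x * Ψ ∈ (augS O ρ K) ^ i := by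
  have h0 : ∀ x ∈ augS O ρ K, Φ * x * Ψ ∈ augS O ρ K := by
    intro x hx
    unfold augS at hx
    induction hx using Submodule.span_induction with
    | mem x h =>
      obtain ⟨m, hm, rfl⟩ := h
      have h1 : Φ * (ρ m - 1) * Ψ = ρ (φ m) - 1 := by
        rw [mul_sub, sub_mul, mul_one, hR.rho, hR.pq]
      rw [h1]
      exact Ideal_mem (hKφ m hm)
    | zero => rw [mul_zero, zero_mul]; exact Submodule.zero_mem _
    | add x y _ _ hx hy => rw [mul_add, add_mul]; exact Submodule.add_mem _ hx hy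
    | smul a x _ hx =>
      rw [mul_smul_comm, smul_mul_assoc]
      exact Submodule.smul_mem _ a hx
  induction i with
  | zero =>
    intro x hx
    rw [pow_zero] at hx ⊢
    obtain ⟨r, rfl⟩ := Submodule.mem_one.1 hx
    have h1 : Φ * algebraMap O E r * Ψ = algebraMap O E r := by
      rw [← Algebra.commutes r Φ, mul_assoc, hR.pq, mul_one]
    rw [h1]
    exact Submodule.mem_one.2 ⟨r, rfl⟩
  | succ i ih =>
    intro x hx
    rw [pow_succ] at hx ⊢
    refine Submodule.mul_induction_on hx ?_ ?_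
    · intro a ha b hb
      have h1 : Φ * (a * b) * Ψ = (Φ * a * Ψ) * (Φ * b * Ψ) := by
        have h2 : (Φ * a * Ψ) * (Φ * b * Ψ) = Φ * a * (Ψ * Φ) * b * Ψ := by
          simp only [mul_assoc]
        rw [h2, hR.qp, mul_one]
        simp only [mul_assoc]
      rw [h1]
      exact Submodule.mul_mem_mul (ih a ha) (h0 b hb)
    · intro u v hu hv
      rw [mul_add, add_mul]
      exact Submodule.add_mem _ hu hv

end Pool.Agent.OrdR
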