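import Pool.Agent.OrdR.Basic

/-!
# Pigeonhole principle for commuting letters

Write `c = c_1 + ⋯ + c_(n-1)` with `c_d = {a ∈ c, Hom ζ Φ d a}` (`cmp_sum`, `cmp_mem`, `cmp_hom`, `cmp_zero`; `c` is
stable under conjugation by `Φ` and `Φ^j a Ψ^j ∈ c`). The `c_d` commute. If `i ∉ PS S` then for `0 < d < n`:
`b = -d ≠ 0` in `ZMod n`, so there is `k` (`k < n` without loss of generality) with `i - k d ∉ S`; so for `t ∈ c_d^n` (or any
power `≥ k`): `ide i * t_1 ⋯ t_n = t_1 ⋯ t_k * ide (i - k d) * ⋯ = 0` (`Hom.ide`, with a natural number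
representing `i - k d`). As the `c_d` commute, `c^(n*n)` is contained in the sum of the `c_d^n * ⊤`:
either expand, or by induction on the number of classes: if `P`, `Q` commute elementwise and every
`ide i`, `i ∉ PS S`, kills `P^a ⊤` and `Q^b ⊤`, then it kills `(P + Q)^(a+b) ⊤`. `n = 1`: `c = ⊥` by
the trace condition.
-/

set_option autoImplicit false

namespace Pool.Agent.OrdR

open Pool.Agent.LgP Pool.Agent.OrdS

/-- the right ideal killed by `e` -/
private def Pig_K (O : Type) {A : Type} [CommRing O] [Ring A] [Algebra O A] (e : A) :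
    Submodule O A where
  carrier := {y | e * y = 0}
  add_mem' := by
    intro a b ha hb
    show e * (a + b) = 0
    rw [mul_add, ha, hb, add_zero]
  zero_mem' := mul_zero e
  smul_mem' := by
    intro r a ha
    show e * (r • a) = 0
    rw [mul_smul_comm, ha, smul_zero]

private theorem Pig_mem {O A : Type} [CommRing O] [Ring A] [Algebra O A] {e y : A} :
    y ∈ Pig_K O e ↔ e * y = 0 := Iff.rfl

private theorem Pig_right {O A : Type} [CommRing O] [Ring A] [Algebra O A] {e : A}
    {X : Submodule O A} (h : X ≤ Pig_K O e) (Y : Submodule O A) : X * Y ≤ Pig_K O e := by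
  rw [Submodule.mul_le]
  intro x hx y _
  rw [Pig_mem, ← mul_assoc, Pig_mem.1 (h hx), zero_mul]

private theorem Pig_two {O A : Type} [CommRing O] [Ring A] [Algebra O A] {e : A}
    {P Q : Submodule O A} (hPQ : ∀ p ∈ P, ∀ q ∈ Q, p * q = q * p) {a b : ℕ}
    (hP : P ^ a ≤ Pig_K O e) (hQ : Q ^ b ≤ Pig_K O e) : (P ⊔ Q) ^ (a + b) ≤ Pig_K O e := by
  have hc : Commute P Q := by
    show P * Q = Q * P
    apply le_antisymm
    · rw [Submodule.mul_le]
      intro p hp q hq
      rw [hPQ p hp q hq]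
      exact Submodule.mul_mem_mul hq hp
    · rw [Submodule.mul_le]
      intro q hq p hp
      rw [← hPQ p hp q hq]
      exact Submodule.mul_mem_mul hp hq
  rw [← Submodule.add_eq_sup, hc.add_pow]
  refine Finset.sum_induction _ (fun X => X ≤ Pig_K O e) ?_ ?_ ?_
  · intro X Y hX hY
    rw [Submodule.add_eq_sup]
    exact sup_le hX hY
  · exact bot_le
  · intro m hm
    rw [Finset.mem_range] at hm
    apply Pig_right
    by_cases h : a ≤ m
    · have e1 : P ^ m = P ^ a * P ^ (m - a) := by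
        rw [← pow_add]
        congr 1
        omega
      rw [e1, mul_assoc]
      exact Pig_right hP _
    · have e1 : Q ^ (a + b - m) = Q ^ b * Q ^ (a - m) := by
        rw [← pow_add]
        congr 1
        omega
      rw [(hc.pow_pow m (a + b - m)).eq, e1, mul_assoc]
      exact Pig_right hQ _

private theorem Pig_sup {O A : Type} [CommRing O] [Ring A] [Algebra O A] {e : A}
    (c : Submodule O A) (hc : ∀ a ∈ c, ∀ b ∈ c, a * b = b * a) (f : ℕ → Submodule O A) (m : ℕ)
    (s : Finset ℕ) (hf : ∀ d ∈ s, f d ≤ c) (hk : ∀ d ∈ s, f d ^ m ≤ Pig_K O e) :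
    (s.sup f) ^ (m * s.card + 1) ≤ Pig_K O e := by
  classical
  induction s using Finset.induction_on with
  | empty =>
    rw [Finset.sup_empty, Finset.card_empty, mul_zero, zero_add, pow_one]
    exact bot_le
  | insert d s hd ih =>
    rw [Finset.sup_insert, Finset.card_insert_of_notMem hd]
    have e1 : m * (s.card + 1) + 1 = m + (m * s.card + 1) := by ring
    rw [e1]
    apply Pig_two
    · intro p hp q hq
      apply hc p (hf d (Finset.mem_insert_self d s) hp) q
      have h2 : s.sup f ≤ c := Finset.sup_le fun d' hd' => hf d' (Finset.mem_insert_of_mem hd')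
      exact h2 hq
    · exact hk d (Finset.mem_insert_self d s)
    · exact ih (fun d' hd' => hf d' (Finset.mem_insert_of_mem hd'))
        (fun d' hd' => hk d' (Finset.mem_insert_of_mem hd'))

/-- the homogeneous elements of degree `d` -/
private def Pig_H {O A : Type} [CommRing O] [Ring A] [Algebra O A] (ζ : O) (Φ : A) (d : ℕ) :
    Submodule O A where
  carrier := {a | Hom ζ Φ d a}
  add_mem' := fun ha hb => Hom.add ha hb
  zero_mem' := Hom.zero' d
  smul_mem' := fun r _ ha => Hom.smul r ha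

private theorem Pig_pow {O A : Type} [CommRing O] [Ring A] [Algebra O A] (ζ : O) (Φ : A) (d k : ℕ)
    (P : Submodule O A) (hP : ∀ a ∈ P, Hom ζ Φ d a) : ∀ a ∈ P ^ k, Hom ζ Φ (k * d) a := by
  have key : P ^ k ≤ Pig_H ζ Φ (k * d) := by
    induction k with
    | zero =>
      rw [pow_zero, Submodule.one_le, zero_mul]
      exact Hom.one'
    | succ k ih =>
      rw [pow_succ, Submodule.mul_le]
      intro x hx y hy
      have := Hom.mul (ih hx) (hP y hy)
      rw [add_mul, one_mul]
      exact this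
  exact fun a ha => key ha

/-- products of `n * n` commuting letters of nonzero degree live on the nontrivial cosets contained
in the support -/
theorem pig {n : ℕ} {O A : Type} [CommRing O] [Ring A] [Algebra O A] {ζ : O} {Φ Ψ : A}
    (h : Rot n ζ Φ Ψ) (S : Set (ZMod n)) (hS : Supp n ζ Φ S) (c : Submodule O A)
    (hc : ∀ a ∈ c, ∀ b ∈ c, a * b = b * a) (hΦ : ∀ a ∈ c, Φ * a * Ψ ∈ c)
    (htr : ∀ a ∈ c, ∑ j ∈ Finset.range n, Φ ^ j * a * Ψ ^ j = 0) (i : ℕ)
    (hi : (i : ZMod n) ∉ PS S) : ∀ y ∈ c ^ (n * n), ide n ζ Φ i * y = 0 := by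
  have hn : 0 < n := h.prim.pos
  have hle : c ≤ (Finset.Ico 1 n).sup (fun d => c ⊓ Pig_H ζ Φ d) := by
    intro a ha
    rw [← cmp_sum h a]
    refine Submodule.sum_mem _ fun d hd => ?_
    rw [Finset.mem_range] at hd
    rcases Nat.eq_zero_or_pos d with h0 | h0
    · rw [h0, cmp_zero (htr a ha)]
      exact Submodule.zero_mem _
    · have h1 : d ∈ Finset.Ico 1 n := Finset.mem_Ico.2 ⟨h0, hd⟩
      have h2 := Finset.le_sup (f := fun d => c ⊓ Pig_H ζ Φ d) h1
      exact h2 ⟨cmp_mem c hΦ ha d, cmp_hom h d a⟩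
  have hK : ∀ d ∈ Finset.Ico 1 n, (c ⊓ Pig_H ζ Φ d) ^ n ≤ Pig_K O (ide n ζ Φ i) := by
    intro d hd
    rw [Finset.mem_Ico] at hd
    have hd0 : (d : ZMod n) ≠ 0 := by
      rw [Ne, ZMod.natCast_eq_zero_iff]
      intro h1
      have := Nat.le_of_dvd (by omega) h1
      omega
    have h2 : ∃ k : ℕ, (i : ZMod n) + k • (-(d : ZMod n)) ∉ S := by
      by_contra h3
      push Not at h3
      exact hi ⟨-(d : ZMod n), neg_ne_zero.2 hd0, h3⟩
    obtain ⟨k, hk⟩ := h2
    have hkn : k % n < n := Nat.mod_lt _ hn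
    have hk' : ((i + (k % n) * (n - d) : ℕ) : ZMod n) ∉ S := by
      have e1 : ((i + (k % n) * (n - d) : ℕ) : ZMod n) = (i : ZMod n) + k • (-(d : ZMod n)) := by
        rw [Nat.cast_add, Nat.cast_mul, Nat.cast_sub (by omega), ZMod.natCast_self,
          ZMod.natCast_mod, zero_sub, nsmul_eq_mul]
      rw [e1]
      exact hk
    have e2 : (c ⊓ Pig_H ζ Φ d) ^ n =
        (c ⊓ Pig_H ζ Φ d) ^ (k % n) * (c ⊓ Pig_H ζ Φ d) ^ (n - k % n) := by
      rw [← pow_add]
      congr 1
      omega
    rw [e2]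
    apply Pig_right
    intro y hy
    rw [Pig_mem]
    have hy1 : Hom ζ Φ ((k % n) * d) y :=
      Pig_pow ζ Φ d (k % n) _ (fun a ha => (Submodule.mem_inf.1 ha).2) y hy
    have h4 := Hom.ide h hy1 (i + (k % n) * (n - d))
    have e3 : i ≡ i + (k % n) * (n - d) + (k % n) * d [MOD n] := by
      have e4 : i + (k % n) * (n - d) + (k % n) * d = i + (k % n) * n := by
        rw [add_assoc, ← mul_add]
        congr 2
        omega
      rw [e4]
      exact (Nat.add_mul_mod_self_right i (k % n) n).symm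
    rw [ide_congr h e3, h4, hS _ hk', mul_zero]
  have h5 := Pig_sup (e := ide n ζ Φ i) c hc (fun d => c ⊓ Pig_H ζ Φ d) n (Finset.Ico 1 n)
    (fun d _ => inf_le_left) hK
  have e6 : n * n = (n * (Finset.Ico 1 n).card + 1) + (n - 1) := by
    rw [Nat.card_Ico]
    obtain ⟨m, rfl⟩ : ∃ m, n = m + 1 := ⟨n - 1, by omega⟩
    rw [Nat.add_sub_cancel]
    ring
  have h7 : c ^ (n * n) ≤ Pig_K O (ide n ζ Φ i) := by
    rw [e6, pow_add]
    apply Pig_right
    exact le_trans (pow_le_pow_left' hle _) h5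
  exact fun y hy => Pig_mem.1 (h7 hy)

end Pool.Agent.OrdR
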