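import Pool.Agent.OrdR.Maps
import Pool.Agent.OrdR.Pig
import Pool.Agent.OrdR.App
import Pool.Agent.OrdR.Ideal

/-!
# The Lie lemma for the coset principle

`L = LC P`, `N = derG s ⊤`, `X = XN O ρ P N` the span of the commutators `ρ g x ρ g⁻¹ - x` (`x ∈ P`, `g ∈ N`). Claim: if
`derL r L = ⊥` then `X^(MM n r) = ⊥`. Induction on `r` over all algebras. `r = 0`: `P = ⊥`. Step: let
`derL (r+1) L = ⊥`, `c = derL r L`: its elements commute, `c` is stable under conjugation by `Φ` and `ρ g` and under `ad x`,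
`x ∈ P`; trace zero on `c ≤ L`. So `⊤ c ≤ c ⊤` (as `Rec_norm` in `OrdS/Rec.lean`, by `gen`). In the quotient by the ideal `c ⊤` the
derived length is `≤ r`, so `X^(MM n r) ≤ c ⊤` and `X^(n*n*MM n r) ≤ (c ⊤)^(n*n) ≤ c^(n*n) ⊤ =: M`. By `pig`, `ide i * M = 0` for
`i ∉ PS S`, so by `app` (with `M' = ⊥`) `ρ g y = y` for `g ∈ N`, `y ∈ M`. Finally `X M = 0`: for `x ∈ P`, `g ∈ N`, `y ∈ M`:
`(ρ g x ρ g⁻¹ - x) y = ρ g (x y) - x y = 0` because `x y ∈ M`.
-/

set_option autoImplicit false

open scoped commutatorElement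

namespace Pool.Agent.OrdR

open Pool.Agent.LgP Pool.Agent.OrdS

section aux

variable {O A G : Type} [CommRing O] [Ring A] [Algebra O A] [Group G]

private theorem LieR_top : (⊤ : Submodule O A) * ⊤ = ⊤ := by
  apply le_antisymm le_top
  intro a _
  have : a = a * 1 := (mul_one a).symm
  rw [this]
  exact Submodule.mul_mem_mul trivial trivial

private theorem LieR_norm {Φ : A} {ρ : G →* A} {P : Submodule O A}
    (hgen : Algebra.adjoin O ({Φ} ∪ Set.range ρ ∪ (P : Set A)) = ⊤) (b : Submodule O A)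
    (hΦ : ∀ β ∈ b, Φ * β ∈ b * (⊤ : Submodule O A))
    (hρ : ∀ g, ∀ β ∈ b, ρ g * β ∈ b * (⊤ : Submodule O A))
    (hP : ∀ x ∈ P, ∀ β ∈ b, x * β ∈ b * (⊤ : Submodule O A)) :
    (⊤ : Submodule O A) * b ≤ b * ⊤ := by
  let T : Subalgebra O A :=
    { carrier := {a | ∀ β ∈ b, a * β ∈ b * (⊤ : Submodule O A)}
      mul_mem' := by
        intro a a' ha ha' β hβ
        have h1 : a * a' * β = a * (a' * β) := mul_assoc _ _ _
        rw [h1]
        have h2 := ha' β hβ
        refine Submodule.mul_induction_on h2 ?_ ?_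
        · intro γ hγ c _
          rw [← mul_assoc]
          have h3 : a * γ * c ∈ b * (⊤ : Submodule O A) * ⊤ := Submodule.mul_mem_mul (ha γ hγ) trivial
          rwa [mul_assoc b, LieR_top] at h3
        · intro u v hu hv
          rw [mul_add]
          exact Submodule.add_mem _ hu hv
      add_mem' := by
        intro a a' ha ha' β hβ
        rw [add_mul]
        exact Submodule.add_mem _ (ha β hβ) (ha' β hβ)
      algebraMap_mem' := by
        intro r β hβ
        have h1 : algebraMap O A r * β = β * algebraMap O A r := Algebra.commutes r β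
        rw [h1]
        exact Submodule.mul_mem_mul hβ trivial }
  have hT : T = ⊤ := by
    rw [eq_top_iff, ← hgen, Algebra.adjoin_le_iff]
    rintro a ((ha | ha) | ha)
    · rw [Set.mem_singleton_iff.1 ha]
      exact hΦ
    · obtain ⟨g, rfl⟩ := ha
      exact hρ g
    · exact hP a ha
  rw [Submodule.mul_le]
  intro a _ β hβ
  have h1 : a ∈ T := by rw [hT]; trivial
  exact h1 β hβ

private theorem LieR_pow_top (b : Submodule O A) (hb : (⊤ : Submodule O A) * b ≤ b * ⊤) (k : ℕ) :
    (b * (⊤ : Submodule O A)) ^ k ≤ b ^ k * ⊤ := by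
  induction k with
  | zero =>
    rw [pow_zero, pow_zero, one_mul]
    exact le_top
  | succ k ih =>
    calc (b * (⊤ : Submodule O A)) ^ (k + 1) = (b * ⊤) ^ k * (b * ⊤) := pow_succ _ _
      _ ≤ (b ^ k * ⊤) * (b * ⊤) := mul_le_mul' ih le_rfl
      _ = b ^ k * (⊤ * b) * ⊤ := by simp only [mul_assoc]
      _ ≤ b ^ k * (b * ⊤) * ⊤ := mul_le_mul' (mul_le_mul' le_rfl hb) le_rfl
      _ = b ^ (k + 1) * ⊤ := by
        rw [pow_succ]
        simp only [mul_assoc]
        rw [LieR_top]

private theorem LieR_top_pow (b : Submodule O A) (hb : (⊤ : Submodule O A) * b ≤ b * ⊤) (k : ℕ) :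
    (⊤ : Submodule O A) * b ^ k ≤ b ^ k * ⊤ := by
  induction k with
  | zero => rw [pow_zero, mul_one, one_mul]
  | succ k ih =>
    calc (⊤ : Submodule O A) * b ^ (k + 1) = (⊤ * b ^ k) * b := by rw [pow_succ, mul_assoc]
      _ ≤ (b ^ k * ⊤) * b := mul_le_mul' ih le_rfl
      _ = b ^ k * (⊤ * b) := by rw [mul_assoc]
      _ ≤ b ^ k * (b * ⊤) := mul_le_mul' le_rfl hb
      _ = b ^ (k + 1) * ⊤ := by rw [pow_succ, mul_assoc]

/-- conjugation as an algebra homomorphism -/
private def LieR_conj (O : Type) {A : Type} [CommRing O] [Ring A] [Algebra O A] (u v : A)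
    (h1 : u * v = 1) (h2 : v * u = 1) : A →ₐ[O] A where
  toFun a := u * a * v
  map_one' := by rw [mul_one, h1]
  map_mul' a b := by
    have : (u * a * v) * (u * b * v) = u * a * (v * u) * b * v := by simp only [mul_assoc]
    rw [this, h2, mul_one]
    simp only [mul_assoc]
  map_zero' := by rw [mul_zero, zero_mul]
  map_add' a b := by rw [mul_add, add_mul]
  commutes' r := by
    show u * algebraMap O A r * v = _
    rw [← Algebra.commutes, mul_assoc, h1, mul_one]

private theorem LieR_derL_mono {S T : Submodule O A} (h : S ≤ T) (k : ℕ) :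
    derL k S ≤ derL k T := by
  induction k with
  | zero => exact h
  | succ k ih =>
    show Submodule.span O _ ≤ Submodule.span O _
    apply Submodule.span_mono
    rintro x ⟨a, ha, b, hb, rfl⟩
    exact ⟨a, ih ha, b, ih hb, rfl⟩

private theorem LieR_LC_mono {S T : Submodule O A} (h : S ≤ T) : LC S ≤ LC T :=
  LC_le (LC_lie _) (h.trans (le_LC _))

private theorem LieR_stab (u v : A) (h1 : u * v = 1) (h2 : v * u = 1) (P : Submodule O A)
    (hP : ∀ x ∈ P, u * x * v ∈ P) (k : ℕ) : ∀ a ∈ derL k (LC P), u * a * v ∈ derL k (LC P) := by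
  intro a ha
  have h3 : P.map (LieR_conj O u v h1 h2).toLinearMap ≤ P := by
    rintro _ ⟨x, hx, rfl⟩
    exact hP x hx
  have h4 : (derL k (LC P)).map (LieR_conj O u v h1 h2).toLinearMap ≤ derL k (LC P) := by
    rw [derL_map, LC_map]
    exact LieR_derL_mono (LieR_LC_mono h3) k
  exact h4 ⟨a, ha, rfl⟩

private theorem LieR_derL_ideal {S : Submodule O A} (hS : IsLie S) (k : ℕ) :
    ∀ s ∈ S, ∀ p ∈ derL k S, s * p - p * s ∈ derL k S := by
  induction k with
  | zero => exact fun s hs p hp => hS s hs p hp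
  | succ k ih =>
    intro s hs p hp
    change p ∈ Submodule.span O _ at hp
    induction hp using Submodule.span_induction with
    | mem p hp =>
      obtain ⟨a, ha, b, hb, rfl⟩ := hp
      have e : s * (a * b - b * a) - (a * b - b * a) * s =
          ((s * a - a * s) * b - b * (s * a - a * s)) +
          (a * (s * b - b * s) - (s * b - b * s) * a) := by noncomm_ring
      rw [e]
      exact Submodule.add_mem _ (Submodule.subset_span ⟨_, ih s hs a ha, b, hb, rfl⟩)
        (Submodule.subset_span ⟨a, ha, _, ih s hs b hb, rfl⟩)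
    | zero => rw [mul_zero, zero_mul, sub_zero]; exact Submodule.zero_mem _
    | add a b _ _ h1 h2 =>
      have e : s * (a + b) - (a + b) * s = (s * a - a * s) + (s * b - b * s) := by noncomm_ring
      rw [e]
      exact Submodule.add_mem _ h1 h2
    | smul r a _ h1 =>
      rw [mul_smul_comm, smul_mul_assoc, ← smul_sub]
      exact Submodule.smul_mem _ _ h1

private theorem LieR_derL_le {S : Submodule O A} (hS : IsLie S) (k : ℕ) : derL k S ≤ S := by
  induction k with
  | zero => exact le_rfl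
  | succ k ih =>
    show Submodule.span O _ ≤ _
    rw [Submodule.span_le]
    rintro _ ⟨a, ha, b, hb, rfl⟩
    exact hS a (ih ha) b (ih hb)

private theorem LieR_XN_map {B : Type} [Ring B] [Algebra O B] (f : A →ₐ[O] B) (ρ : G →* A)
    (P : Submodule O A) (N : Subgroup G) :
    (XN O ρ P N).map f.toLinearMap =
      XN O ((f : A →* B).comp ρ) (P.map f.toLinearMap) N := by
  unfold XN
  rw [Submodule.map_span]
  congr 1
  ext y
  constructor
  · rintro ⟨_, ⟨x, hx, g, hg, rfl⟩, rfl⟩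
    exact ⟨f x, ⟨x, hx, rfl⟩, g, hg, by simp⟩
  · rintro ⟨_, ⟨x, hx, rfl⟩, g, hg, rfl⟩
    exact ⟨_, ⟨x, hx, g, hg, rfl⟩, by simp⟩

private theorem LieR_map {n : ℕ} {ζ : O} {φ : G →* G} {Φ Ψ : A} {ρ : G →* A}
    {P : Submodule O A} {B : Type} [Ring B] [Algebra O B] (h : SysR n ζ φ Φ Ψ ρ P)
    (f : A →ₐ[O] B) (hf : Function.Surjective f) :
    SysR n ζ φ (f Φ) (f Ψ) ((f : A →* B).comp ρ) (P.map f.toLinearMap) := by
  refine ⟨h.prim, h.rep.map f, ?_, ?_, ?_, ?_⟩
  · rintro _ ⟨x, hx, rfl⟩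
    exact ⟨_, h.hΦ x hx, by simp⟩
  · rintro g _ ⟨x, hx, rfl⟩
    exact ⟨_, h.hρ g x hx, by simp⟩
  · intro a ha
    rw [← LC_map] at ha
    obtain ⟨a, ha, rfl⟩ := ha
    have := congrArg f (h.tr a ha)
    simpa [map_sum, map_mul, map_pow] using this
  · have h1 := congrArg (Subalgebra.map f) h.gen
    rw [Algebra.map_top, AlgHom.range_eq_top f |>.2 hf, AlgHom.map_adjoin] at h1
    rw [← h1]
    congr 1
    rw [Set.image_union, Set.image_union, Set.image_singleton]
    have e : (⇑f '' Set.range ⇑ρ) = Set.range ⇑((f : A →* B).comp ρ) := by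
      ext y
      constructor
      · rintro ⟨_, ⟨g, rfl⟩, rfl⟩
        exact ⟨g, rfl⟩
      · rintro ⟨g, rfl⟩
        exact ⟨_, ⟨g, rfl⟩, rfl⟩
    rw [e]
    rfl

end aux

theorem lieR {n : ℕ} {O G : Type} [CommRing O] [Group G] {ζ : O} {φ : G →* G}
    {S : Set (ZMod n)} {s : ℕ} (hT : Tr n ζ φ (PS S) s) (r : ℕ) :
    ∀ (A : Type) [Ring A] [Algebra O A] (Φ Ψ : A) (ρ : G →* A) (P : Submodule O A),
      SysR n ζ φ Φ Ψ ρ P → Supp n ζ Φ S → derL r (LC P) = ⊥ →
      (XN O ρ P (derG s ⊤)) ^ (MM n r) = ⊥ := by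
  induction r with
  | zero =>
    intro A _ _ Φ Ψ ρ P h hS hd
    have hP : P = ⊥ := by
      rw [eq_bot_iff, ← hd]
      exact le_LC _
    show (XN O ρ P (derG s ⊤)) ^ 1 = ⊥
    rw [pow_one, eq_bot_iff]
    unfold XN
    rw [Submodule.span_le]
    rintro _ ⟨x, hx, g, hg, rfl⟩
    rw [hP, Submodule.mem_bot] at hx
    rw [hx]
    simp
  | succ r ih =>
    intro A _ _ Φ Ψ ρ P h hS hd
    have hrot := h.rep.rot h.prim
    have hL : IsLie (LC P) := LC_lie P
    have hPL : P ≤ LC P := le_LC P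
    obtain ⟨c, hcdef⟩ : ∃ c, c = derL r (LC P) := ⟨_, rfl⟩
    have hcL : c ≤ LC P := by rw [hcdef]; exact LieR_derL_le hL r
    have hcc : ∀ a ∈ c, ∀ b ∈ c, a * b = b * a := by
      intro a ha b hb
      rw [hcdef] at ha hb
      have h1 : a * b - b * a ∈ derL (r + 1) (LC P) := Submodule.subset_span ⟨a, ha, b, hb, rfl⟩
      rw [hd, Submodule.mem_bot] at h1
      exact sub_eq_zero.1 h1
    have hρ1 : ∀ g, ρ g * ρ g⁻¹ = 1 := fun g => by rw [← map_mul, mul_inv_cancel, map_one]
    have hρ2 : ∀ g, ρ g⁻¹ * ρ g = 1 := fun g => by rw [← map_mul, inv_mul_cancel, map_one]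
    have hcΦ : ∀ a ∈ c, Φ * a * Ψ ∈ c := by
      rw [hcdef]
      exact LieR_stab Φ Ψ h.rep.pq h.rep.qp P h.hΦ r
    have hcρ : ∀ g, ∀ a ∈ c, ρ g * a * ρ g⁻¹ ∈ c := by
      intro g
      rw [hcdef]
      exact LieR_stab (ρ g) (ρ g⁻¹) (hρ1 g) (hρ2 g) P (h.hρ g) r
    have hcx : ∀ x ∈ P, ∀ a ∈ c, x * a - a * x ∈ c := by
      intro x hx
      rw [hcdef]
      exact LieR_derL_ideal hL r x (hPL hx)
    have hn : (⊤ : Submodule O A) * c ≤ c * ⊤ := by
      apply LieR_norm h.gen
      · intro a ha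
        have e : Φ * a = (Φ * a * Ψ) * Φ := by rw [mul_assoc _ Ψ Φ, h.rep.qp, mul_one]
        rw [e]
        exact Submodule.mul_mem_mul (hcΦ a ha) trivial
      · intro g a ha
        have e : ρ g * a = (ρ g * a * ρ g⁻¹) * ρ g := by rw [mul_assoc _ (ρ g⁻¹), hρ2, mul_one]
        rw [e]
        exact Submodule.mul_mem_mul (hcρ g a ha) trivial
      · intro x hx a ha
        have e : x * a = (x * a - a * x) * 1 + a * x := by rw [mul_one, sub_add_cancel]
        rw [e]
        exact Submodule.add_mem _ (Submodule.mul_mem_mul (hcx x hx a ha) trivial)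
          (Submodule.mul_mem_mul ha trivial)
    have hl : ∀ b : Submodule O A, (⊤ : Submodule O A) * b ≤ b * ⊤ → ∀ a : A,
        ∀ k ∈ b * (⊤ : Submodule O A), a * k ∈ b * (⊤ : Submodule O A) := by
      intro b hb a k hk
      have h1 : a * k ∈ ⊤ * (b * (⊤ : Submodule O A)) := Submodule.mul_mem_mul trivial hk
      have h2 : (⊤ : Submodule O A) * (b * ⊤) ≤ b * ⊤ := by
        rw [← mul_assoc]
        refine (mul_le_mul' hb le_rfl).trans ?_
        rw [mul_assoc, LieR_top]
      exact h2 h1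
    have hr : ∀ b : Submodule O A, ∀ a : A,
        ∀ k ∈ b * (⊤ : Submodule O A), k * a ∈ b * (⊤ : Submodule O A) := by
      intro b a k hk
      have h1 : k * a ∈ (b * (⊤ : Submodule O A)) * ⊤ := Submodule.mul_mem_mul hk trivial
      rwa [mul_assoc, LieR_top] at h1
    -- the quotient
    obtain ⟨B, _, _, f, hf, hk⟩ := exists_quot (c * (⊤ : Submodule O A)) (hl c hn) (hr c)
    have h1 : derL r (LC (P.map f.toLinearMap)) = ⊥ := by
      rw [← LC_map, ← derL_map, ← hcdef, eq_bot_iff]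
      rintro _ ⟨p, hp, rfl⟩
      rw [Submodule.mem_bot]
      refine (hk p).2 ?_
      have : p = p * 1 := (mul_one p).symm
      rw [this]
      exact Submodule.mul_mem_mul hp trivial
    have h2 := ih B (f Φ) (f Ψ) _ _ (LieR_map h f hf) (hS.map f) h1
    obtain ⟨X, hX⟩ : ∃ X, X = XN O ρ P (derG s ⊤) := ⟨_, rfl⟩
    have h3 : X ^ (MM n r) ≤ c * ⊤ := by
      intro x hx
      have e : ∀ (Q : Submodule O A) (k : ℕ), (Q ^ k).map f.toLinearMap =
        (Q.map f.toLinearMap) ^ k := fun Q k => Submodule.map_pow _ _ _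
      have h4 : f x ∈ (X ^ (MM n r)).map f.toLinearMap := ⟨x, hx, rfl⟩
      rw [e, hX, LieR_XN_map, h2, Submodule.mem_bot] at h4
      exact (hk x).1 h4
    have h5 : X ^ (n * n * MM n r) ≤ c ^ (n * n) * ⊤ := by
      rw [mul_comm, pow_mul]
      exact (pow_le_pow_left' h3 _).trans (LieR_pow_top c hn _)
    obtain ⟨M, hM⟩ : ∃ M, M = c ^ (n * n) * (⊤ : Submodule O A) := ⟨_, rfl⟩
    have hMl : ∀ a : A, ∀ k ∈ M, a * k ∈ M := by
      rw [hM]
      exact hl _ (LieR_top_pow c hn _)
    have hMi : ∀ i : ℕ, (i : ZMod n) ∉ PS S → ∀ x ∈ M, ide n ζ Φ i * x ∈ (⊥ : Submodule O A) := by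
      intro i hi x hx
      rw [hM] at hx
      refine Submodule.mul_induction_on hx ?_ ?_
      · intro y hy z _
        rw [← mul_assoc, pig hrot S hS c hcc hcΦ (fun a ha => h.tr a (hcL ha)) i hi y hy, zero_mul]
        exact Submodule.zero_mem _
      · intro u v hu hv
        rw [mul_add]
        exact Submodule.add_mem _ hu hv
    have hact := app h.prim h.rep hT M ⊥ bot_le (fun x hx => hMl _ x hx)
      (fun x hx => by rw [(Submodule.mem_bot O).1 hx, mul_zero]; exact Submodule.zero_mem _)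
      (fun g x hx => hMl _ x hx)
      (fun g x hx => by rw [(Submodule.mem_bot O).1 hx, mul_zero]; exact Submodule.zero_mem _) hMi
    have hact' : ∀ g ∈ derG s (⊤ : Subgroup G), ∀ x ∈ M, ρ g * x = x := by
      intro g hg x hx
      have h6 := hact g hg x hx
      rw [Submodule.mem_bot, sub_mul, one_mul] at h6
      exact sub_eq_zero.1 h6
    have hXM : X * M = ⊥ := by
      rw [eq_bot_iff, Submodule.mul_le]
      intro a ha y hy
      rw [hX] at ha
      unfold XN at ha
      rw [Submodule.mem_bot]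
      induction ha using Submodule.span_induction with
      | mem a ha =>
        obtain ⟨x, hx, g, hg, rfl⟩ := ha
        have h6 : ρ g⁻¹ * y = y := hact' _ (Subgroup.inv_mem _ hg) y hy
        have h7 : ρ g * (x * y) = x * y := hact' g hg _ (hMl x y hy)
        rw [sub_mul, mul_assoc, h6, mul_assoc, h7, sub_self]
      | zero => rw [zero_mul]
      | add a b _ _ h1 h2 => rw [add_mul, h1, h2, add_zero]
      | smul r a _ h1 => rw [smul_mul_assoc, h1, smul_zero]
    show (XN O ρ P (derG s ⊤)) ^ (n * n * MM n r + 1) = ⊥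
    rw [← hX, pow_succ', eq_bot_iff]
    refine (mul_le_mul' le_rfl h5).trans ?_
    rw [← hM, hXM]

end Pool.Agent.OrdR
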