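import Pool.Agent.OrdR.Basic

/-!
# Homomorphisms, subalgebras (compare `Sys.map` in `OrdS/Basic.lean` and `OrdS/Words.lean`)
-/

set_option autoImplicit false

namespace Pool.Agent.OrdR

open Pool.Agent.LgP Pool.Agent.OrdS

variable {n : ℕ} {O A : Type} [CommRing O] [Ring A] [Algebra O A] {ζ : O} {Φ Ψ : A}

section map

variable {B : Type} [Ring B] [Algebra O B]

theorem Rot.map (h : Rot n ζ Φ Ψ) (f : A →ₐ[O] B) : Rot n ζ (f Φ) (f Ψ) := by
  refine ⟨h.prim, ?_, ?_, ?_⟩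
  · rw [← map_mul, h.pq, map_one]
  · rw [← map_mul, h.qp, map_one]
  · rw [← map_pow, h.pow, map_one]

theorem Hom.map {i : ℕ} {a : A} (h : Hom ζ Φ i a) (f : A →ₐ[O] B) : Hom ζ (f Φ) i (f a) := by
  unfold OrdR.Hom at h ⊢
  rw [← map_mul, h, map_smul, map_mul]

theorem ide_map (f : A →ₐ[O] B) (i : ℕ) : f (ide n ζ Φ i) = ide n ζ (f Φ) i := by
  unfold ide
  rw [map_smul, map_sum]
  congr 1
  exact Finset.sum_congr rfl fun j _ => by rw [map_smul, map_pow]

theorem cmp_map (f : A →ₐ[O] B) (i : ℕ) (a : A) :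
    f (cmp n ζ Φ Ψ i a) = cmp n ζ (f Φ) (f Ψ) i (f a) := by
  unfold cmp
  rw [map_smul, map_sum]
  congr 1
  exact Finset.sum_congr rfl fun j _ => by rw [map_smul, map_mul, map_mul, map_pow, map_pow]

theorem Supp.map {S : Set (ZMod n)} (h : Supp n ζ Φ S) (f : A →ₐ[O] B) : Supp n ζ (f Φ) S := by
  intro i hi
  rw [← ide_map, h i hi, map_zero]

/-- support of a subalgebra -/
theorem Supp.of_inj {S : Set (ZMod n)} (f : A →ₐ[O] B) (hf : Function.Injective f)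
    (h : Supp n ζ (f Φ) S) : Supp n ζ Φ S := by
  intro i hi
  apply hf
  rw [ide_map, h i hi, map_zero]

variable {G : Type} [Group G] {φ : G →* G} {ρ : G →* A}

private theorem Maps_aug (f : A →ₐ[O] B) :
    (aug O ρ).map f.toLinearMap = aug O ((f : A →* B).comp ρ) := by
  unfold aug
  rw [Submodule.map_span]
  congr 1
  ext x
  constructor
  · rintro ⟨_, ⟨g, rfl⟩, rfl⟩
    refine ⟨g, ?_⟩
    show f (ρ g) - 1 = f (ρ g - 1)
    rw [map_sub, map_one]
  · rintro ⟨g, rfl⟩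
    refine ⟨ρ g - 1, ⟨g, rfl⟩, ?_⟩
    show f (ρ g - 1) = f (ρ g) - 1
    rw [map_sub, map_one]

theorem Rep.map (h : Rep n O φ Φ Ψ ρ) (f : A →ₐ[O] B) :
    Rep n O φ (f Φ) (f Ψ) ((f : A →* B).comp ρ) := by
  refine ⟨?_, ?_, ?_, ?_, ?_⟩
  · rw [← map_mul, h.pq, map_one]
  · rw [← map_mul, h.qp, map_one]
  · rw [← map_pow, h.pow, map_one]
  · intro g
    show f Φ * f (ρ g) * f Ψ = f (ρ (φ g))
    rw [← map_mul, ← map_mul, h.rho]
  · obtain ⟨K, hK⟩ := h.nil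
    refine ⟨K, ?_⟩
    rw [← Maps_aug, ← Submodule.map_pow, hK, Submodule.map_bot]

theorem Gen.map (h : Gen O Φ ρ) (f : A →ₐ[O] B) (hf : Function.Surjective f) :
    Gen O (f Φ) ((f : A →* B).comp ρ) := by
  unfold Gen at h ⊢
  have h1 := congrArg (Subalgebra.map f) h
  rw [AlgHom.map_adjoin, Algebra.map_top, (AlgHom.range_eq_top f).2 hf, Set.image_union,
    Set.image_singleton] at h1
  rw [← h1]
  congr 2
  ext x
  constructor
  · rintro ⟨g, rfl⟩
    exact ⟨ρ g, ⟨g, rfl⟩, rfl⟩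
  · rintro ⟨_, ⟨g, rfl⟩, rfl⟩
    exact ⟨g, rfl⟩

theorem augS_map (f : A →ₐ[O] B) (K : Subgroup G) :
    (augS O ρ K).map f.toLinearMap = augS O ((f : A →* B).comp ρ) K := by
  unfold augS
  rw [Submodule.map_span]
  congr 1
  ext x
  constructor
  · rintro ⟨_, ⟨g, hg, rfl⟩, rfl⟩
    refine ⟨g, hg, ?_⟩
    show f (ρ g - 1) = f (ρ g) - 1
    rw [map_sub, map_one]
  · rintro ⟨g, hg, rfl⟩
    refine ⟨ρ g - 1, ⟨g, hg, rfl⟩, ?_⟩
    show f (ρ g - 1) = f (ρ g) - 1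
    rw [map_sub, map_one]

end map

/-- reduction to algebras generated by `Φ` and the image of the group (`B` = the subalgebra generated by
`Φ` and all `ρ g`; `Ψ = Φ^(n-1)`; restrict `ρ`, compare `OrdS/Words.lean`) -/
theorem tr_of_gen {G : Type} [Group G] (φ : G →* G) (hP : Prim O n ζ) (S : Set (ZMod n)) (s : ℕ)
    (h : ∀ (E : Type) [Ring E] [Algebra O E] (Φ Ψ : E) (ρ : G →* E), Rep n O φ Φ Ψ ρ →
      Supp n ζ Φ S → Gen O Φ ρ → ∀ g ∈ derG s (⊤ : Subgroup G), ρ g = 1) : Tr n ζ φ S s := by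
  intro E _ _ Φ Ψ ρ hR hS g hg
  obtain ⟨B, hB⟩ : ∃ B : Subalgebra O E, B = Algebra.adjoin O ({Φ} ∪ Set.range ρ) := ⟨_, rfl⟩
  have hΦB : Φ ∈ B := by
    rw [hB]
    exact Algebra.subset_adjoin (Or.inl rfl)
  have hρB : ∀ g, ρ g ∈ B := by
    intro g
    rw [hB]
    exact Algebra.subset_adjoin (Or.inr ⟨g, rfl⟩)
  have hΨB : Ψ ∈ B := by
    rw [(hR.rot hP).psi]
    exact pow_mem hΦB (n - 1)
  let f : B →ₐ[O] E := B.val
  have hfi : Function.Injective f := Subtype.val_injective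
  let Φ' : B := ⟨Φ, hΦB⟩
  let Ψ' : B := ⟨Ψ, hΨB⟩
  let ρ' : G →* B :=
    { toFun := fun g => ⟨ρ g, hρB g⟩
      map_one' := Subtype.ext (map_one ρ)
      map_mul' := fun a b => Subtype.ext (map_mul ρ a b) }
  have hcomp : ((f : B →* E).comp ρ') = ρ := by
    ext g
    rfl
  have hR' : Rep n O φ Φ' Ψ' ρ' := by
    refine ⟨Subtype.ext hR.pq, Subtype.ext hR.qp, Subtype.ext ?_, fun g => Subtype.ext (hR.rho g),
      ?_⟩
    · show ((Φ' ^ n : B) : E) = 1
      rw [SubmonoidClass.coe_pow]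
      exact hR.pow
    · obtain ⟨K, hK⟩ := hR.nil
      refine ⟨K, ?_⟩
      have h1 : ((aug O ρ') ^ K).map f.toLinearMap = ⊥ := by
        rw [Submodule.map_pow, Maps_aug, hcomp, hK]
      rw [eq_bot_iff]
      intro x hx
      have h2 : f x ∈ ((aug O ρ') ^ K).map f.toLinearMap := ⟨x, hx, rfl⟩
      rw [h1, Submodule.mem_bot] at h2
      rw [Submodule.mem_bot]
      apply hfi
      rw [h2, map_zero]
  have hS' : Supp n ζ Φ' S := Supp.of_inj f hfi hS
  have hG' : Gen O Φ' ρ' := by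
    have h1 : Subalgebra.map f (Algebra.adjoin O ({Φ'} ∪ Set.range ρ')) = Subalgebra.map f ⊤ := by
      rw [AlgHom.map_adjoin, Algebra.map_top]
      have h2 : f.range = B := Subalgebra.range_val B
      have e1 : (⇑f '' Set.range ρ') = Set.range ρ := by
        rw [← Set.range_comp]
        rfl
      have e0 : (⇑f '' ({Φ'} ∪ Set.range ρ')) = {Φ} ∪ Set.range ρ := by
        rw [Set.image_union, Set.image_singleton, e1]
        rfl
      rw [h2, e0]
      exact hB.symm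
    exact Subalgebra.map_injective hfi h1
  have h3 := h B Φ' Ψ' ρ' hR' hS' hG' g hg
  exact congrArg (fun b : B => (b : E)) h3

end Pool.Agent.OrdR
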