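import Pool.Agent.OrdR.Maps
import Pool.Agent.OrdR.Pig
import Pool.Agent.OrdR.App
import Pool.Agent.OrdR.Ideal

/-!
# The derived step

`one_ab` (commuting case): `I = augS O ρ K`, `K` normal, `φ`-stable, contained in `derG s ⊤`, the elements of `I` commute. Let `c` be the span
of all `u - (1/n) ∑_j Φ^j u Ψ^j`, `u ∈ I` (equivalently the elements of `I` with trace zero: `c = {u ∈ I | tr u = 0}`). For
`k ∈ K`: `∑_j Φ^j (ρ k - 1) Ψ^j = ∑_j (ρ (φ^j k) - 1) ∈ I^2` because the product of the `ρ (φ^j k)` is `1`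
(`Split`; induction on a list as in `GrF_list`). So `I ≤ c + I^2` and `I^m ≤ c^m + I^(m+1)` (`c ≤ I`), `m = n*n`. By `pig`
`ide i * c^m = 0` for `i ∉ PS S`, so `ide i * I^m ≤ ide i * I^(m+1)`, and by induction `ide i * I^m ≤ ide i * I^(m+a) = 0`
for all `a` (multiply by `I^a` on the right; `augS_nil`). So `app` with `M = I^m ⊤`, `M' = ⊥`, `P = PS S` gives
`(ρ g - 1) I^m = 0` for `g ∈ K ≤ derG s ⊤`: `I^(m+1) = ⊥`.

`one`: apply `one_ab` in the quotient of `E` by the ideal `augS O ρ ⁅K, K⁆ * ⊤` (two-sided by `top_augS`;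
`exists_quot` in `OrdS/Basic.lean`, `Rep.map`, `Gen.map`, `Supp.map`, `augS_map`); in the quotient the images of
`ρ k`, `k ∈ K`, commute.
-/

set_option autoImplicit false

open scoped commutatorElement

namespace Pool.Agent.OrdR

open Pool.Agent.LgP Pool.Agent.OrdS

variable {n : ℕ} {O E G : Type} [CommRing O] [Ring E] [Algebra O E] [Group G] {ζ : O}
  {φ : G →* G} {Φ Ψ : E} {ρ : G →* E} {S : Set (ZMod n)} {s : ℕ}

private def One_tr (O : Type) {E : Type} [CommRing O] [Ring E] [Algebra O E] (n : ℕ) (Φ Ψ : E) :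
    E →ₗ[O] E where
  toFun u := ∑ j ∈ Finset.range n, Φ ^ j * u * Ψ ^ j
  map_add' u v := by
    rw [← Finset.sum_add_distrib]
    refine Finset.sum_congr rfl fun j _ => ?_
    rw [mul_add, add_mul]
  map_smul' r u := by
    rw [RingHom.id_apply, Finset.smul_sum]
    refine Finset.sum_congr rfl fun j _ => ?_
    rw [mul_smul_comm, smul_mul_assoc]

private theorem One_tr_apply (u : E) :
    One_tr O n Φ Ψ u = ∑ j ∈ Finset.range n, Φ ^ j * u * Ψ ^ j := rfl

private theorem One_tr_conj (h : Rot n ζ Φ Ψ) (u : E) :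
    Φ * One_tr O n Φ Ψ u * Ψ = One_tr O n Φ Ψ u := by
  rw [One_tr_apply, Finset.mul_sum, Finset.sum_mul]
  have h1 : ∀ j, Φ * (Φ ^ j * u * Ψ ^ j) * Ψ = Φ ^ (j + 1) * u * Ψ ^ (j + 1) := by
    intro j
    rw [pow_succ', pow_succ]
    simp only [mul_assoc]
  simp only [h1]
  obtain ⟨m, rfl⟩ : ∃ m, n = m + 1 := ⟨n - 1, (Nat.succ_pred_eq_of_pos h.prim.pos).symm⟩
  rw [Finset.sum_range_succ, Finset.sum_range_succ' (fun j => Φ ^ j * u * Ψ ^ j)]
  congr 1
  rw [h.pow, h.powPsi, pow_zero, pow_zero]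

private theorem One_tr_pow (h : Rot n ζ Φ Ψ) (u : E) (j : ℕ) :
    Φ ^ j * One_tr O n Φ Ψ u * Ψ ^ j = One_tr O n Φ Ψ u := by
  induction j with
  | zero => simp
  | succ j ih =>
    have e : Φ ^ (j + 1) * One_tr O n Φ Ψ u * Ψ ^ (j + 1) =
        Φ ^ j * (Φ * One_tr O n Φ Ψ u * Ψ) * Ψ ^ j := by
      rw [pow_succ, pow_succ']
      simp only [mul_assoc]
    rw [e, One_tr_conj h, ih]

private theorem One_tr_tr (h : Rot n ζ Φ Ψ) (u : E) :
    One_tr O n Φ Ψ (One_tr O n Φ Ψ u) = (n : O) • One_tr O n Φ Ψ u := by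
  conv_lhs => rw [One_tr_apply]
  rw [Finset.sum_congr rfl fun j _ => One_tr_pow h u j, Finset.sum_const, Finset.card_range,
    Nat.cast_smul_eq_nsmul]

private theorem One_tr_stab (h : Rot n ζ Φ Ψ) (u : E) :
    One_tr O n Φ Ψ (Φ * u * Ψ) = One_tr O n Φ Ψ u := by
  have h1 : One_tr O n Φ Ψ (Φ * u * Ψ) = Φ * One_tr O n Φ Ψ u * Ψ := by
    rw [One_tr_apply, One_tr_apply, Finset.mul_sum, Finset.sum_mul]
    refine Finset.sum_congr rfl fun j _ => ?_
    have e1 : Φ ^ j * (Φ * u * Ψ) * Ψ ^ j = Φ ^ (j + 1) * u * Ψ ^ (j + 1) := by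
      rw [pow_succ, pow_succ']
      simp only [mul_assoc]
    have e2 : Φ * (Φ ^ j * u * Ψ ^ j) * Ψ = Φ ^ (j + 1) * u * Ψ ^ (j + 1) := by
      rw [pow_succ', pow_succ]
      simp only [mul_assoc]
    rw [e1, e2]
  rw [h1, One_tr_conj h]

private theorem One_list (ρ : G →* E) (K : Subgroup G) (L : List G) (hL : ∀ x ∈ L, x ∈ K) :
    L.prod ∈ K ∧ (L.map fun x => ρ x - 1).sum - (ρ L.prod - 1) ∈ (augS O ρ K) ^ 2 := by
  induction L with
  | nil => simp [K.one_mem]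
  | cons x L ih =>
    obtain ⟨h1, h2⟩ := ih fun y hy => hL y (List.mem_cons_of_mem _ hy)
    have hx := hL x List.mem_cons_self
    have e : ρ (x :: L).prod - 1 = (ρ x - 1) + (ρ L.prod - 1) + (ρ x - 1) * (ρ L.prod - 1) := by
      rw [List.prod_cons, map_mul]; noncomm_ring
    have h3 : (ρ x - 1) * (ρ L.prod - 1) ∈ (augS O ρ K) ^ 2 := by
      rw [pow_two]
      exact Submodule.mul_mem_mul (Submodule.subset_span ⟨x, hx, rfl⟩)
        (Submodule.subset_span ⟨L.prod, h1, rfl⟩)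
    refine ⟨?_, ?_⟩
    · rw [List.prod_cons]
      exact K.mul_mem hx h1
    · rw [e, List.map_cons, List.sum_cons]
      have e2 : (ρ x - 1 + (L.map fun x => ρ x - 1).sum) -
          ((ρ x - 1) + (ρ L.prod - 1) + (ρ x - 1) * (ρ L.prod - 1)) =
          ((L.map fun x => ρ x - 1).sum - (ρ L.prod - 1)) - (ρ x - 1) * (ρ L.prod - 1) := by
        abel
      rw [e2]
      exact Submodule.sub_mem _ h2 h3

private theorem One_conj (hR : Rep n O φ Φ Ψ ρ) (k : G) (j : ℕ) :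
    Φ ^ j * (ρ k - 1) * Ψ ^ j = ρ ((⇑φ)^[j] k) - 1 := by
  induction j with
  | zero => simp
  | succ j ih =>
    have e : Φ ^ (j + 1) * (ρ k - 1) * Ψ ^ (j + 1) =
        Φ * (Φ ^ j * (ρ k - 1) * Ψ ^ j) * Ψ := by
      rw [pow_succ', pow_succ]
      simp only [mul_assoc]
    rw [e, ih, mul_sub, sub_mul, hR.rho, mul_one, hR.pq, Function.iterate_succ_apply']

private theorem One_tr_mem (hspl : Split n φ) (hR : Rep n O φ Φ Ψ ρ) (K : Subgroup G)
    (hKφ : ∀ k ∈ K, φ k ∈ K) {k : G} (hk : k ∈ K) :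
    One_tr O n Φ Ψ (ρ k - 1) ∈ (augS O ρ K) ^ 2 := by
  have hit : ∀ j : ℕ, (⇑φ)^[j] k ∈ K := by
    intro j
    induction j with
    | zero => exact hk
    | succ j ih =>
      rw [Function.iterate_succ_apply']
      exact hKφ _ ih
  have h1 := (One_list (O := O) ρ K ((List.range n).map fun j => (⇑φ)^[j] k) (by
    intro x hx
    obtain ⟨j, -, rfl⟩ := List.mem_map.mp hx
    exact hit j)).2
  rw [hspl k, map_one, sub_self, sub_zero, List.map_map] at h1
  rw [One_tr_apply, Finset.sum_congr rfl fun j _ => One_conj hR k j, gr_sum_list]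
  exact h1

private theorem One_le (hP : Prim O n ζ) (hspl : Split n φ) (hR : Rep n O φ Φ Ψ ρ)
    (K : Subgroup G) (hKφ : ∀ k ∈ K, φ k ∈ K) :
    augS O ρ K ≤ (augS O ρ K ⊓ LinearMap.ker (One_tr O n Φ Ψ)) ⊔ (augS O ρ K) ^ 2 := by
  have hI2 : (augS O ρ K) ^ 2 ≤ augS O ρ K := by
    rw [pow_two]; exact augS_mul K
  rw [augS, Submodule.span_le, ← augS]
  rintro _ ⟨k, hk, rfl⟩
  have ht : Ring.inverse (n : O) • One_tr O n Φ Ψ (ρ k - 1) ∈ (augS O ρ K) ^ 2 :=
    Submodule.smul_mem _ _ (One_tr_mem hspl hR K hKφ hk)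
  have e : ρ k - 1 = ((ρ k - 1) - Ring.inverse (n : O) • One_tr O n Φ Ψ (ρ k - 1)) +
      Ring.inverse (n : O) • One_tr O n Φ Ψ (ρ k - 1) := by
    rw [sub_add_cancel]
  show ρ k - 1 ∈ _
  rw [e]
  refine Submodule.add_mem _ (Submodule.mem_sup_left ⟨?_, ?_⟩) (Submodule.mem_sup_right ht)
  · exact Submodule.sub_mem _ (Submodule.subset_span ⟨k, hk, rfl⟩) (hI2 ht)
  · show One_tr O n Φ Ψ _ = 0
    rw [map_sub, map_smul, One_tr_tr (hR.rot hP), smul_comm, ← inv_n hP (One_tr O n Φ Ψ (ρ k - 1))]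
    rw [inv_n hP, smul_comm, inv_n hP, sub_self]

private theorem One_pow_le (I c : Submodule O E) (hc : c ≤ I) (h : I ≤ c ⊔ I ^ 2)
    (hI2 : I * I ≤ I) (m : ℕ) : I ^ m ≤ c ^ m ⊔ I ^ (m + 1) := by
  induction m with
  | zero => rw [pow_zero, pow_zero]; exact le_sup_left
  | succ m ih =>
    have hcm : c ^ m ≤ I ^ m := pow_le_pow_left' hc m
    calc I ^ (m + 1) = I ^ m * I := pow_succ _ _
      _ ≤ (c ^ m ⊔ I ^ (m + 1)) * (c ⊔ I ^ 2) := mul_le_mul' ih h
      _ = (c ^ m * c ⊔ c ^ m * I ^ 2) ⊔ (I ^ (m + 1) * c ⊔ I ^ (m + 1) * I ^ 2) := by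
        rw [Submodule.sup_mul, Submodule.mul_sup, Submodule.mul_sup]
      _ ≤ c ^ (m + 1) ⊔ I ^ (m + 1 + 1) := by
        refine sup_le (sup_le ?_ ?_) (sup_le ?_ ?_)
        · rw [← pow_succ]; exact le_sup_left
        · refine le_trans ?_ le_sup_right
          rw [show m + 1 + 1 = m + 2 by ring, pow_add I m 2]
          exact mul_le_mul' hcm le_rfl
        · refine le_trans ?_ le_sup_right
          rw [pow_succ I (m + 1)]
          exact mul_le_mul' le_rfl hc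
        · refine le_trans ?_ le_sup_right
          rw [pow_succ I (m + 1)]
          refine mul_le_mul' le_rfl ?_
          rw [pow_two]
          exact hI2

private theorem One_kill (e I c : Submodule O E) (m : ℕ) (h : I ^ m ≤ c ^ m ⊔ I ^ (m + 1))
    (hec : e * c ^ m = ⊥) (hnil : ∃ k : ℕ, I ^ k = ⊥) : e * I ^ m = ⊥ := by
  have h1 : e * I ^ m ≤ e * I ^ (m + 1) := by
    calc e * I ^ m ≤ e * (c ^ m ⊔ I ^ (m + 1)) := mul_le_mul' le_rfl h
      _ = e * c ^ m ⊔ e * I ^ (m + 1) := by rw [Submodule.mul_sup]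
      _ = e * I ^ (m + 1) := by rw [hec, bot_sup_eq]
  have h2 : ∀ a : ℕ, e * I ^ m ≤ e * I ^ (m + a) := by
    intro a
    induction a with
    | zero => exact le_rfl
    | succ a ih =>
      refine ih.trans ?_
      rw [pow_add I m a, ← mul_assoc, show m + (a + 1) = (m + 1) + a by ring, pow_add I (m + 1) a,
        ← mul_assoc]
      exact mul_le_mul' h1 le_rfl
  obtain ⟨k, hk⟩ := hnil
  rw [eq_bot_iff]
  refine (h2 k).trans ?_
  rw [pow_add, hk, Submodule.mul_bot, Submodule.mul_bot]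

private theorem One_top (b : Submodule O E) (hb : (⊤ : Submodule O E) * b ≤ b * ⊤) (a : E) {x : E}
    (hx : x ∈ b * (⊤ : Submodule O E)) : a * x ∈ b * (⊤ : Submodule O E) := by
  have h1 : a * x ∈ (⊤ : Submodule O E) * (b * ⊤) := Submodule.mul_mem_mul Submodule.mem_top hx
  have h2 : (⊤ : Submodule O E) * (b * ⊤) ≤ b * ⊤ := by
    rw [← mul_assoc]
    refine le_trans (mul_le_mul' hb le_rfl) ?_
    rw [mul_assoc]
    exact mul_le_mul' le_rfl le_top
  exact h2 h1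

theorem one_ab (hP : Prim O n ζ) (hspl : Split n φ) (hR : Rep n O φ Φ Ψ ρ) (hgen : Gen O Φ ρ)
    (hS : Supp n ζ Φ S) (hT : Tr n ζ φ (PS S) s) (K : Subgroup G) (hK : K.Normal)
    (hKφ : ∀ k ∈ K, φ k ∈ K) (hKs : K ≤ derG s ⊤)
    (hc : ∀ a ∈ augS O ρ K, ∀ b ∈ augS O ρ K, a * b = b * a) :
    (augS O ρ K) ^ (n * n + 1) = ⊥ := by
  have hrot := hR.rot hP
  have hle := One_pow_le (augS O ρ K) (augS O ρ K ⊓ LinearMap.ker (One_tr O n Φ Ψ)) inf_le_left
    (One_le hP hspl hR K hKφ) (augS_mul K) (n * n)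
  have hpig : ∀ i : ℕ, (i : ZMod n) ∉ PS S →
      ∀ y ∈ (augS O ρ K ⊓ LinearMap.ker (One_tr O n Φ Ψ)) ^ (n * n), ide n ζ Φ i * y = 0 := by
    intro i hi
    refine pig hrot S hS (augS O ρ K ⊓ LinearMap.ker (One_tr O n Φ Ψ))
      (fun a ha b hb => hc a ha.1 b hb.1) ?_ (fun a ha => ha.2) i hi
    intro a ha
    refine ⟨?_, ?_⟩
    · have := augS_phi hR K hKφ 1 a (by rw [pow_one]; exact ha.1)
      rwa [pow_one] at this
    · show One_tr O n Φ Ψ (Φ * a * Ψ) = 0
      rw [One_tr_stab hrot]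
      exact ha.2
  have htop := top_pow (augS O ρ K) (top_augS hR hgen K hK hKφ) (n * n)
  have hzero : ∀ i : ℕ, (i : ZMod n) ∉ PS S →
      ∀ x ∈ (augS O ρ K) ^ (n * n) * (⊤ : Submodule O E), ide n ζ Φ i * x ∈
        (⊥ : Submodule O E) := by
    intro i hi x hx
    have h1 : (Submodule.span O {ide n ζ Φ i}) * (augS O ρ K) ^ (n * n) = ⊥ := by
      refine One_kill _ _ _ _ hle ?_ (augS_nil hR K)
      rw [eq_bot_iff, Submodule.mul_le]
      intro a ha b hb
      obtain ⟨r, rfl⟩ := Submodule.mem_span_singleton.1 ha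
      rw [smul_mul_assoc, hpig i hi b hb, smul_zero]
      exact Submodule.zero_mem _
    have h2 : ide n ζ Φ i * x ∈ (Submodule.span O {ide n ζ Φ i}) *
        ((augS O ρ K) ^ (n * n) * (⊤ : Submodule O E)) :=
      Submodule.mul_mem_mul (Submodule.mem_span_singleton_self _) hx
    rw [← mul_assoc, h1, Submodule.bot_mul] at h2
    exact h2
  have happ := app hP hR hT ((augS O ρ K) ^ (n * n) * (⊤ : Submodule O E)) ⊥ bot_le
    (fun x hx => One_top _ htop Φ hx)
    (fun x hx => by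
      rw [Submodule.mem_bot] at hx ⊢
      rw [hx, mul_zero])
    (fun g x hx => One_top _ htop (ρ g) hx)
    (fun g x hx => by
      rw [Submodule.mem_bot] at hx ⊢
      rw [hx, mul_zero])
    hzero
  rw [pow_succ', eq_bot_iff, Submodule.mul_le]
  intro a ha x hx
  have hx' : x ∈ (augS O ρ K) ^ (n * n) * (⊤ : Submodule O E) := by
    have := Submodule.mul_mem_mul hx (Submodule.mem_top (R := O) (x := (1 : E)))
    rwa [mul_one] at this
  unfold augS at ha
  induction ha using Submodule.span_induction with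
  | mem a h =>
    obtain ⟨k, hk, rfl⟩ := h
    exact happ k (hKs hk) x hx'
  | zero => rw [zero_mul]; exact Submodule.zero_mem _
  | add a b _ _ ha hb => rw [add_mul]; exact Submodule.add_mem _ ha hb
  | smul r a _ ha => rw [smul_mul_assoc]; exact Submodule.smul_mem _ _ ha

theorem one (hP : Prim O n ζ) (hspl : Split n φ) (hR : Rep n O φ Φ Ψ ρ) (hgen : Gen O Φ ρ)
    (hS : Supp n ζ Φ S) (hT : Tr n ζ φ (PS S) s) (K : Subgroup G) (hK : K.Normal)
    (hKφ : ∀ k ∈ K, φ k ∈ K) (hKs : K ≤ derG s ⊤) :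
    (augS O ρ K) ^ (n * n + 1) ≤ augS O ρ ⁅K, K⁆ * ⊤ := by
  have hK2 : (⁅K, K⁆ : Subgroup G).Normal := Subgroup.commutator_normal K K
  have hK2φ : ∀ k ∈ (⁅K, K⁆ : Subgroup G), φ k ∈ (⁅K, K⁆ : Subgroup G) := by
    intro k hk
    have h1 : φ k ∈ (⁅K, K⁆ : Subgroup G).map φ := ⟨k, hk, rfl⟩
    rw [Subgroup.map_commutator] at h1
    have hle : K.map φ ≤ K := by
      rintro _ ⟨x, hx, rfl⟩
      exact hKφ x hx
    exact Subgroup.commutator_mono hle hle h1
  have htop := top_augS hR hgen ⁅K, K⁆ hK2 hK2φ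
  obtain ⟨B, _, _, f, hf, hker⟩ := exists_quot (augS O ρ ⁅K, K⁆ * (⊤ : Submodule O E))
    (fun a k hk => One_top _ htop a hk)
    (fun a k hk => by
      have h1 : k * a ∈ augS O ρ ⁅K, K⁆ * (⊤ : Submodule O E) * ⊤ :=
        Submodule.mul_mem_mul hk Submodule.mem_top
      rw [mul_assoc] at h1
      exact (mul_le_mul' (le_refl (augS O ρ ⁅K, K⁆)) le_top :
        augS O ρ ⁅K, K⁆ * ((⊤ : Submodule O E) * ⊤) ≤ augS O ρ ⁅K, K⁆ * ⊤) h1)
  have hcomm : ∀ a ∈ augS O ((f : E →* B).comp ρ) K, ∀ b ∈ augS O ((f : E →* B).comp ρ) K,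
      a * b = b * a := by
    intro a ha b hb
    unfold augS at ha hb
    induction ha, hb using Submodule.span_induction₂ with
    | mem_mem a b ha hb =>
      obtain ⟨k, hk, rfl⟩ := ha
      obtain ⟨l, hl, rfl⟩ := hb
      have hmem : ρ (l * k) * (ρ (k⁻¹ * l⁻¹ * k * l) - 1) ∈
          augS O ρ ⁅K, K⁆ * (⊤ : Submodule O E) := by
        refine One_top _ htop _ ?_
        have h1 : k⁻¹ * l⁻¹ * k * l = ⁅k⁻¹, l⁻¹⁆ := by
          rw [commutatorElement_def, inv_inv, inv_inv]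
        have h2 : ρ (k⁻¹ * l⁻¹ * k * l) - 1 ∈ augS O ρ ⁅K, K⁆ := by
          rw [h1]
          exact Submodule.subset_span ⟨_, Subgroup.commutator_mem_commutator (K.inv_mem hk)
            (K.inv_mem hl), rfl⟩
        have := Submodule.mul_mem_mul h2 (Submodule.mem_top (R := O) (x := (1 : E)))
        rwa [mul_one] at this
      have h0 := (hker _).2 hmem
      have e : ρ (l * k) * (ρ (k⁻¹ * l⁻¹ * k * l) - 1) =
          (ρ k - 1) * (ρ l - 1) - (ρ l - 1) * (ρ k - 1) := by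
        rw [mul_sub, ← map_mul, mul_one]
        have : l * k * (k⁻¹ * l⁻¹ * k * l) = k * l := by group
        rw [this, map_mul, map_mul]
        noncomm_ring
      rw [e, map_sub, map_mul, map_mul, map_sub, map_sub, map_one, sub_eq_zero] at h0
      exact h0
    | zero_left b _ => rw [zero_mul, mul_zero]
    | zero_right a _ => rw [zero_mul, mul_zero]
    | add_left a b c _ _ _ h1 h2 => rw [add_mul, mul_add, h1, h2]
    | add_right a b c _ _ _ h1 h2 => rw [add_mul, mul_add, h1, h2]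
    | smul_left r a b _ _ h => rw [smul_mul_assoc, mul_smul_comm, h]
    | smul_right r a b _ _ h => rw [smul_mul_assoc, mul_smul_comm, h]
  have hab := one_ab hP hspl (hR.map f) (hgen.map f hf) (hS.map f) hT K hK hKφ hKs hcomm
  intro x hx
  rw [← hker]
  have h1 : f x ∈ ((augS O ρ K) ^ (n * n + 1)).map f.toLinearMap := ⟨x, hx, rfl⟩
  rw [Submodule.map_pow, augS_map, hab, Submodule.mem_bot] at h1
  exact h1

end Pool.Agent.OrdR
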