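import Pool.Agent.OrdR.One
import Pool.Agent.OrdR.GrR
import Pool.Agent.OrdR.Cent

/-!
# The coset principle

`m = n*n+1`, `M = MR n`, `N = derG s ⊤`. By `tr_of_gen` let `E` be generated by `Φ` and `ρ`. `I(K) = augS O ρ K`.
(1) `I(N)^(m^d) ⊤ ≤ I(derG d N) ⊤` by `one` and induction on `d` (`derG d N = derG (s+d) ⊤` is normal and `φ`-stable, `ideal_pow`),
and `derG d N ≤ gam N (2^d-1)`. (2) `I(gam N t)^(M^t) ⊤ ≤ I(N)^((M+1)^t) ⊤` by `central` with `K = gam N j`, `j = t-1, …, 0`.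
(3) with `t = 2^d-1`: `I(N)^W ⊤ ≤ I(N)^((M+1)^t) ⊤ ≤ I(N)^(W+1) ⊤`, `W = m^d * M^t < (M+1)^t` for the `d` of `growth`, so
`I(N)^W = 0` by nilpotency, and `derG_trivial` (`OrdS/Act.lean`) gives that `derG W N = derG (s + W) ⊤` acts trivially (`W ≤ 2^W`).
-/

set_option autoImplicit false

open scoped commutatorElement

namespace Pool.Agent.OrdR

open Pool.Agent.LgP Pool.Agent.OrdS

private theorem ThmR_add {G : Type} [Group G] (H : Subgroup G) (s k : ℕ) :
    derG (s + k) H = derG k (derG s H) := by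
  induction k with
  | zero => rfl
  | succ k ih =>
    show ⁅derG (s + k) H, derG (s + k) H⁆ = ⁅derG k (derG s H), derG k (derG s H)⁆
    rw [ih]

private theorem ThmR_normal {G : Type} [Group G] (H : Subgroup G) (hH : H.Normal) (k : ℕ) :
    (derG k H).Normal := by
  induction k with
  | zero => exact hH
  | succ k ih =>
    show (⁅derG k H, derG k H⁆).Normal
    exact Subgroup.commutator_normal _ _

private theorem ThmR_phi {G : Type} [Group G] (φ : G →* G) (H : Subgroup G)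
    (hH : ∀ g ∈ H, φ g ∈ H) (k : ℕ) : ∀ g ∈ derG k H, φ g ∈ derG k H := by
  induction k with
  | zero => exact hH
  | succ k ih =>
    have h : ⁅derG k H, derG k H⁆ ≤ (⁅derG k H, derG k H⁆).comap φ := by
      rw [Subgroup.commutator_le]
      intro a ha b hb
      rw [Subgroup.mem_comap, map_commutatorElement]
      exact Subgroup.commutator_mem_commutator (ih a ha) (ih b hb)
    exact fun g hg => h hg

private theorem ThmR_le {G : Type} [Group G] (H : Subgroup G) (hH : H.Normal) (k : ℕ) :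
    derG k H ≤ H := by
  induction k with
  | zero => exact le_rfl
  | succ k ih =>
    show ⁅derG k H, derG k H⁆ ≤ H
    have := ThmR_normal H hH k
    exact (Subgroup.commutator_le_left _ _).trans ih

section alg

variable {O E : Type} [CommRing O] [Ring E] [Algebra O E]

private theorem ThmR_top : (⊤ : Submodule O E) * ⊤ = ⊤ := by
  apply le_antisymm le_top
  intro a _
  have h : a = a * 1 := (mul_one a).symm
  rw [h]
  exact Submodule.mul_mem_mul trivial trivial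

private theorem ThmR_one_le : (1 : Submodule O E) ≤ ⊤ := le_top

private theorem ThmR_le_top (b : Submodule O E) : b ≤ b * ⊤ := by
  calc b = b * 1 := (mul_one b).symm
    _ ≤ b * ⊤ := mul_le_mul' le_rfl le_top

private theorem ThmR_ideal (b : Submodule O E) (hb : (⊤ : Submodule O E) * b ≤ b * ⊤) (i : ℕ)
    (hi : 0 < i) : (b * (⊤ : Submodule O E)) ^ i = b ^ i * ⊤ := by
  obtain ⟨j, rfl⟩ : ∃ j, i = j + 1 := ⟨i - 1, by omega⟩
  exact ideal_pow b hb j

private theorem ThmR_drop (b : Submodule O E) {i j : ℕ} (h : i ≤ j) :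
    b ^ j * (⊤ : Submodule O E) ≤ b ^ i * ⊤ := by
  obtain ⟨k, rfl⟩ := Nat.exists_eq_add_of_le h
  rw [pow_add, mul_assoc]
  exact mul_le_mul' le_rfl le_top

end alg

private theorem ThmR_MM (n r : ℕ) : 0 < MM n r := by
  cases r with
  | zero => exact Nat.one_pos
  | succ r => exact Nat.succ_pos _

theorem thmR (n : ℕ) (hn : 0 < n) : ∃ f : ℕ, ∀ (O G : Type) [CommRing O] [Group G] (ζ : O)
    (φ : G →* G) (S : Set (ZMod n)) (s : ℕ), Prim O n ζ → Split n φ → Tr n ζ φ (PS S) s →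
    Tr n ζ φ S (s + f) := by
  obtain ⟨d, hd⟩ := growth (n * n + 1) (MR n) (Nat.succ_pos _) (ThmR_MM n _)
  refine ⟨(n * n + 1) ^ d * MR n ^ (2 ^ d - 1), ?_⟩
  intro O G _ _ ζ φ S s hP hspl hT
  refine tr_of_gen φ hP S _ ?_
  intro E _ _ Φ Ψ ρ hR hS hgen
  obtain ⟨m, hm⟩ : ∃ m, m = n * n + 1 := ⟨_, rfl⟩
  obtain ⟨M, hM⟩ : ∃ M, M = MR n := ⟨_, rfl⟩
  obtain ⟨t, ht⟩ : ∃ t, t = 2 ^ d - 1 := ⟨_, rfl⟩
  have hm0 : 0 < m := by omega
  have hM0 : 0 < M := by rw [hM]; exact ThmR_MM n _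
  rw [← hm, ← hM, ← ht] at hd ⊢
  obtain ⟨N, hN⟩ : ∃ N, N = derG s (⊤ : Subgroup G) := ⟨_, rfl⟩
  have hNn : N.Normal := by
    rw [hN]
    exact ThmR_normal _ inferInstance s
  have hNφ : ∀ g ∈ N, φ g ∈ N := by
    rw [hN]
    exact ThmR_phi φ _ (fun g _ => Subgroup.mem_top _) s
  have htop : ∀ K : Subgroup G, K.Normal → (∀ k ∈ K, φ k ∈ K) →
      (⊤ : Submodule O E) * augS O ρ K ≤ augS O ρ K * ⊤ := fun K hK hKφ =>
    top_augS hR hgen K hK hKφ
  -- the derived series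
  have h1 : ∀ k : ℕ, (augS O ρ N) ^ (m ^ k) ≤ augS O ρ (derG k N) * ⊤ := by
    intro k
    induction k with
    | zero =>
      rw [pow_zero, pow_one]
      exact ThmR_le_top _
    | succ k ih =>
      have hK : (derG k N).Normal := ThmR_normal N hNn k
      have hKφ := ThmR_phi φ N hNφ k
      have hKs : derG k N ≤ derG s ⊤ := by
        rw [← hN]
        exact ThmR_le N hNn k
      have h := one hP hspl hR hgen hS hT (derG k N) hK hKφ hKs
      rw [← hm] at h
      calc (augS O ρ N) ^ (m ^ (k + 1)) = ((augS O ρ N) ^ (m ^ k)) ^ m := by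
            rw [pow_succ, pow_mul]
        _ ≤ (augS O ρ (derG k N) * ⊤) ^ m := pow_le_pow_left' ih m
        _ = (augS O ρ (derG k N)) ^ m * ⊤ := ThmR_ideal _ (htop _ hK hKφ) m hm0
        _ ≤ (augS O ρ ⁅derG k N, derG k N⁆ * ⊤) * ⊤ := mul_le_mul' h le_rfl
        _ = augS O ρ (derG (k + 1) N) * ⊤ := by
            rw [mul_assoc, ThmR_top]
            rfl
  -- the lower central series
  have h2 : ∀ j : ℕ, (augS O ρ (gam N j)) ^ (M ^ j) ≤ (augS O ρ N) ^ ((M + 1) ^ j) * ⊤ := by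
    intro j
    induction j with
    | zero =>
      rw [pow_zero, pow_zero, pow_one, pow_one]
      exact ThmR_le_top _
    | succ j ih =>
      have hK := gam_normal N hNn j
      have hKφ := gam_phi φ N hNφ j
      have h := central hP hspl hR hgen hS hT (gam N j) hK hKφ
      rw [← hM, ← hN] at h
      have hb := top_pow (augS O ρ (gam N j)) (htop _ hK hKφ) (M + 1)
      have hbN := top_pow (augS O ρ N) (htop _ hNn hNφ) ((M + 1) ^ j)
      calc (augS O ρ (gam N (j + 1))) ^ (M ^ (j + 1))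
          = ((augS O ρ ⁅N, gam N j⁆) ^ M) ^ (M ^ j) := by
            rw [← pow_mul, pow_succ, mul_comm (M ^ j) M]
            rfl
        _ ≤ ((augS O ρ (gam N j)) ^ (M + 1) * ⊤) ^ (M ^ j) := pow_le_pow_left' h _
        _ = ((augS O ρ (gam N j)) ^ (M + 1)) ^ (M ^ j) * ⊤ :=
            ThmR_ideal _ hb _ (pow_pos hM0 j)
        _ = ((augS O ρ (gam N j)) ^ (M ^ j)) ^ (M + 1) * ⊤ := by
            rw [← pow_mul, ← pow_mul, mul_comm]
        _ ≤ ((augS O ρ N) ^ ((M + 1) ^ j) * ⊤) ^ (M + 1) * ⊤ :=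
            mul_le_mul' (pow_le_pow_left' ih _) le_rfl
        _ = (((augS O ρ N) ^ ((M + 1) ^ j)) ^ (M + 1) * ⊤) * ⊤ := by
            rw [ThmR_ideal _ hbN (M + 1) (Nat.succ_pos M)]
        _ = (augS O ρ N) ^ ((M + 1) ^ (j + 1)) * ⊤ := by
            rw [mul_assoc, ThmR_top, ← pow_mul, ← pow_succ]
  obtain ⟨W, hW⟩ : ∃ W, W = m ^ d * M ^ t := ⟨_, rfl⟩
  rw [← hW] at hd ⊢
  have hgn := gam_normal N hNn t
  have hgφ := gam_phi φ N hNφ t
  have h3 : (augS O ρ N) ^ W ≤ (augS O ρ N) ^ (W + 1) * ⊤ := by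
    have hle : derG d N ≤ gam N t := by
      rw [ht]
      exact derG_le_gam N hNn d
    calc (augS O ρ N) ^ W = ((augS O ρ N) ^ (m ^ d)) ^ (M ^ t) := by rw [hW, pow_mul]
      _ ≤ (augS O ρ (derG d N) * ⊤) ^ (M ^ t) := pow_le_pow_left' (h1 d) _
      _ ≤ (augS O ρ (gam N t) * ⊤) ^ (M ^ t) :=
          pow_le_pow_left' (mul_le_mul' (augS_mono hle) le_rfl) _
      _ = (augS O ρ (gam N t)) ^ (M ^ t) * ⊤ :=
          ThmR_ideal _ (htop _ hgn hgφ) _ (pow_pos hM0 t)
      _ ≤ ((augS O ρ N) ^ ((M + 1) ^ t) * ⊤) * ⊤ := mul_le_mul' (h2 t) le_rfl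
      _ = (augS O ρ N) ^ ((M + 1) ^ t) * ⊤ := by rw [mul_assoc, ThmR_top]
      _ ≤ (augS O ρ N) ^ (W + 1) * ⊤ := ThmR_drop _ hd
  have h4 : ∀ k : ℕ, (augS O ρ N) ^ W ≤ (augS O ρ N) ^ (W + k) * ⊤ := by
    intro k
    induction k with
    | zero => exact ThmR_le_top _
    | succ k ih =>
      calc (augS O ρ N) ^ W ≤ (augS O ρ N) ^ (W + k) * ⊤ := ih
        _ = (augS O ρ N) ^ k * (augS O ρ N) ^ W * ⊤ := by rw [← pow_add, add_comm W k]
        _ ≤ (augS O ρ N) ^ k * ((augS O ρ N) ^ (W + 1) * ⊤) * ⊤ :=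
            mul_le_mul' (mul_le_mul' le_rfl h3) le_rfl
        _ = (augS O ρ N) ^ (W + (k + 1)) * ⊤ := by
            rw [← mul_assoc, ← pow_add, mul_assoc, ThmR_top]
            congr 2
            omega
  obtain ⟨q, hq⟩ := augS_nil hR N
  have h5 : (augS O ρ N) ^ W = ⊥ := by
    rw [eq_bot_iff]
    refine (h4 q).trans ?_
    rw [pow_add, hq, Submodule.mul_bot, Submodule.bot_mul]
  intro g hg
  rw [ThmR_add, ← hN] at hg
  exact derG_trivial ρ N W W (Nat.lt_two_pow_self).le h5 g hg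

end Pool.Agent.OrdR
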